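import Mathlib

set_option autoImplicit false

open TopologicalSpace Filter Topology

namespace Pool.Agent.Lib.MP_92fb3f_an

/-- The separable complementation property. -/
def SCP (E : Type*) [NormedAddCommGroup E] [NormedSpace ℝ E] : Prop :=
  ∀ Y : Submodule ℝ E, IsSeparable (Y : Set E) →
    ∃ Z : Submodule ℝ E, Y ≤ Z ∧ IsClosed (Z : Set E) ∧ IsSeparable (Z : Set E) ∧
      ∃ P : E →L[ℝ] E, (∀ x, P x ∈ Z) ∧ ∀ z ∈ Z, P z = z

theorem SCP.of_equiv {E F : Type*} [NormedAddCommGroup E] [NormedSpace ℝ E]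
    [NormedAddCommGroup F] [NormedSpace ℝ F] (e : E ≃L[ℝ] F) (h : SCP E) : SCP F := by
  intro Y hY
  have hY' : IsSeparable ((Y.map (e.symm : F →ₗ[ℝ] E) : Submodule ℝ E) : Set E) := by
    rw [Submodule.map_coe]
    exact hY.image e.symm.continuous
  obtain ⟨Z, hYZ, hZc, hZs, P, hP1, hP2⟩ := h _ hY'
  refine ⟨Z.map (e : E →ₗ[ℝ] F), ?_, ?_, ?_, ((e : E →L[ℝ] F).comp P).comp (e.symm : F →L[ℝ] E),
    ?_, ?_⟩
  · intro y hy
    have : e.symm y ∈ Z := hYZ (Submodule.mem_map_of_mem hy)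
    exact ⟨e.symm y, this, by simp⟩
  · rw [Submodule.map_coe]
    exact e.toHomeomorph.isClosedMap _ hZc
  · rw [Submodule.map_coe]
    exact hZs.image e.continuous
  · intro x
    exact ⟨P (e.symm x), hP1 _, by simp⟩
  · rintro z ⟨w, hw, rfl⟩
    simp [hP2 w hw]

theorem exists_equiv_of_bij {A B : Type*} [NormedAddCommGroup A] [NormedSpace ℝ A]
    [CompleteSpace A] [NormedAddCommGroup B] [NormedSpace ℝ B] [CompleteSpace B] (f : A →L[ℝ] B)
    (h1 : Function.Injective f) (h2 : Function.Surjective f) : Nonempty (A ≃L[ℝ] B) :=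
  ⟨ContinuousLinearEquiv.ofBijective f (LinearMap.ker_eq_bot.2 h1) (LinearMap.range_eq_top.2 h2)⟩

/-- If `A` is isomorphic to the dual of `X` and the dual of `A` has the SCP, then so does the
bidual of `X`. -/
theorem SCP_bidual {A X : Type*} [NormedAddCommGroup A] [NormedSpace ℝ A]
    [CompleteSpace A] [NormedAddCommGroup X] [NormedSpace ℝ X] (f : A →L[ℝ] (X →L[ℝ] ℝ))
    (h1 : Function.Injective f) (h2 : Function.Surjective f) (h : SCP (A →L[ℝ] ℝ)) :
    SCP ((X →L[ℝ] ℝ) →L[ℝ] ℝ) := by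
  obtain ⟨e⟩ := exists_equiv_of_bij f h1 h2
  exact SCP.of_equiv (e.arrowCongr (ContinuousLinearEquiv.refl ℝ ℝ)) h

section ulim

variable {α : Type*}

/-- limit of a bounded real function along an ultrafilter -/
noncomputable def ulim (U : Ultrafilter α) (f : α → ℝ) : ℝ := limUnder (U : Filter α) f

theorem tendsto_ulim (U : Ultrafilter α) {f : α → ℝ} {C : ℝ} (h : ∀ a, |f a| ≤ C) :
    Tendsto f U (𝓝 (ulim U f)) := by
  have hc : IsCompact (Set.Icc (-C) C) := isCompact_Icc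
  have hle : ((U.map f : Ultrafilter ℝ) : Filter ℝ) ≤ 𝓟 (Set.Icc (-C) C) := by
    rw [le_principal_iff]
    refine Filter.mem_map.2 (Filter.univ_mem' fun a => ?_)
    exact abs_le.1 (h a)
  obtain ⟨x, -, hx⟩ := hc.ultrafilter_le_nhds _ hle
  have hx' : Tendsto f U (𝓝 x) := hx
  rw [ulim, hx'.limUnder_eq]
  exact hx'

theorem ulim_eq (U : Ultrafilter α) {f : α → ℝ} {x : ℝ} (h : Tendsto f U (𝓝 x)) :
    ulim U f = x := h.limUnder_eq

end ulim

end Pool.Agent.Lib.MP_92fb3f_an
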