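import Mathlib
import Pool.Agent.Lib.MP_92fb3f_an.Basic

set_option autoImplicit false

open TopologicalSpace Filter Topology BoundedContinuousFunction

namespace Pool.Agent.Lib.MP_92fb3f_an

section

variable {I H : Type*} [TopologicalSpace I]
  [NormedAddCommGroup H] [NormedSpace ℝ H]

/-- Multiplication by a bounded real function. -/
noncomputable def mulL (U : I →ᵇ ℝ) : (I →ᵇ H) →L[ℝ] (I →ᵇ H) :=
  LinearMap.mkContinuous
    { toFun := fun F => U • F
      map_add' := fun F G => smul_add U F G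
      map_smul' := fun c F => by
        ext i
        change U i • (c • F i) = c • (U i • F i)
        rw [smul_comm] } ‖U‖ (fun F => norm_smul_le U F)

@[simp] theorem mulL_apply (U : I →ᵇ ℝ) (F : I →ᵇ H) (i : I) : mulL U F i = U i • F i := rfl

theorem norm_mulL_apply_le (U : I →ᵇ ℝ) (F : I →ᵇ H) : ‖mulL U F‖ ≤ ‖U‖ * ‖F‖ :=
  norm_smul_le U F

theorem norm_mulL_apply_le_of_unit {U : I →ᵇ ℝ} (h0 : 0 ≤ U) (h1 : U ≤ 1) (F : I →ᵇ H) :
    ‖mulL U F‖ ≤ ‖F‖ := by
  rw [BoundedContinuousFunction.norm_le (norm_nonneg _)]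
  intro i
  have hi : (0 : ℝ) ≤ U i := h0 i
  rw [mulL_apply, norm_smul, Real.norm_of_nonneg hi]
  calc U i * ‖F i‖ ≤ 1 * ‖F i‖ := by
        gcongr
        exact h1 i
    _ ≤ ‖F‖ := by rw [one_mul]; exact F.norm_coe_le_norm i

theorem mulL_mulL (U V : I →ᵇ ℝ) (F : I →ᵇ H) : mulL U (mulL V F) = mulL (U * V) F := by
  ext i
  simp [mul_smul]

theorem mulL_add (U V : I →ᵇ ℝ) (F : I →ᵇ H) : mulL (U + V) F = mulL U F + mulL V F := by
  ext i
  simp [add_smul]

theorem mulL_sub (U V : I →ᵇ ℝ) (F : I →ᵇ H) : mulL (U - V) F = mulL U F - mulL V F := by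
  ext i
  simp [sub_smul]

theorem mulL_smul (c : ℝ) (U : I →ᵇ ℝ) (F : I →ᵇ H) : mulL (c • U) F = c • mulL U F := by
  ext i
  simp [mul_smul]

theorem mulL_one (F : I →ᵇ H) : mulL (1 : I →ᵇ ℝ) F = F := by
  ext i
  simp

theorem exists_norming_seq {E : Type*} [NormedAddCommGroup E] [NormedSpace ℝ E] (φ : E →L[ℝ] ℝ) :
    ∃ F : ℕ → E, (∀ n, ‖F n‖ ≤ 1) ∧ Tendsto (fun n => φ (F n)) atTop (𝓝 ‖φ‖) := by
  have h : ∀ n : ℕ, ∃ F : E, ‖F‖ ≤ 1 ∧ ‖φ‖ - 1 / ((n : ℝ) + 1) ≤ φ F := by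
    intro n
    have hlt : ‖φ‖ - 1 / ((n : ℝ) + 1) < ‖φ‖ := by
      have : (0 : ℝ) < 1 / ((n : ℝ) + 1) := by positivity
      linarith
    obtain ⟨x, hx1, hx2⟩ := φ.exists_lt_apply_of_lt_opNorm hlt
    rcases le_total 0 (φ x) with h0 | h0
    · refine ⟨x, hx1.le, ?_⟩
      rw [Real.norm_of_nonneg h0] at hx2
      exact hx2.le
    · refine ⟨-x, by rw [norm_neg]; exact hx1.le, ?_⟩
      rw [Real.norm_of_nonpos h0] at hx2
      rw [map_neg]
      exact hx2.le
  choose F hF1 hF2 using h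
  refine ⟨F, hF1, ?_⟩
  have hup : ∀ n, φ (F n) ≤ ‖φ‖ := by
    intro n
    calc φ (F n) ≤ ‖φ (F n)‖ := Real.le_norm_self _
      _ ≤ ‖φ‖ * ‖F n‖ := φ.le_opNorm _
      _ ≤ ‖φ‖ * 1 := by gcongr; exact hF1 n
      _ = ‖φ‖ := mul_one _
  refine tendsto_of_tendsto_of_tendsto_of_le_of_le ?_ tendsto_const_nhds hF2 hup
  have : Tendsto (fun n : ℕ => ‖φ‖ - 1 / ((n : ℝ) + 1)) atTop (𝓝 (‖φ‖ - 0)) :=
    tendsto_const_nhds.sub tendsto_one_div_add_atTop_nhds_zero_nat
  simpa using this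

/-- Polar decomposition: every functional on `I →ᵇ H` is dominated by a positive linear functional
of the same norm. -/
theorem exists_polar (φ : (I →ᵇ H) →L[ℝ] ℝ) :
    ∃ l : (I →ᵇ ℝ) →L[ℝ] ℝ, (∀ U, 0 ≤ U → 0 ≤ l U) ∧ l 1 = ‖φ‖ ∧
      ∀ F : I →ᵇ H, |φ F| ≤ l F.normComp := by
  obtain ⟨F, hF1, hF2⟩ := exists_norming_seq φ
  have hbd : ∀ U : I →ᵇ ℝ, ∀ n, |φ (mulL U (F n))| ≤ ‖φ‖ * ‖U‖ := by
    intro U n
    calc |φ (mulL U (F n))| ≤ ‖φ‖ * ‖mulL U (F n)‖ := φ.le_opNorm _
      _ ≤ ‖φ‖ * (‖U‖ * ‖F n‖) := by gcongr; exact norm_mulL_apply_le _ _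
      _ ≤ ‖φ‖ * (‖U‖ * 1) := by gcongr; exact hF1 n
      _ = ‖φ‖ * ‖U‖ := by ring
  let u : Ultrafilter ℕ := hyperfilter ℕ
  have hlim : ∀ U : I →ᵇ ℝ, Tendsto (fun n => φ (mulL U (F n))) u
      (𝓝 (ulim u fun n => φ (mulL U (F n)))) := fun U => tendsto_ulim u (hbd U)
  let l0 : (I →ᵇ ℝ) →ₗ[ℝ] ℝ :=
    { toFun := fun U => ulim u fun n => φ (mulL U (F n))
      map_add' := fun U V => by
        refine ulim_eq u ?_
        have := (hlim U).add (hlim V)
        refine this.congr fun n => ?_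
        rw [mulL_add, map_add]
      map_smul' := fun c U => by
        refine ulim_eq u ?_
        have := (hlim U).const_mul c
        refine this.congr fun n => ?_
        rw [mulL_smul, map_smul, smul_eq_mul] }
  have hl0 : ∀ U, ‖l0 U‖ ≤ ‖φ‖ * ‖U‖ := by
    intro U
    exact le_of_tendsto ((hlim U).norm) (Eventually.of_forall fun n => hbd U n)
  let l : (I →ᵇ ℝ) →L[ℝ] ℝ := l0.mkContinuous ‖φ‖ hl0
  have hl : ∀ U, Tendsto (fun n => φ (mulL U (F n))) u (𝓝 (l U)) := hlim
  have hφ : Tendsto (fun n => φ (F n)) u (𝓝 ‖φ‖) := hF2.mono_left Nat.hyperfilter_le_atTop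
  have hl1 : l 1 = ‖φ‖ := by
    refine tendsto_nhds_unique (hl 1) ?_
    refine hφ.congr fun n => ?_
    rw [mulL_one]
  have hlnorm : ∀ U, l U ≤ ‖φ‖ * ‖U‖ := fun U => (Real.le_norm_self _).trans (hl0 U)
  refine ⟨l, ?_, hl1, ?_⟩
  · intro U hU
    -- scale to the unit interval
    have hc : 0 ≤ ‖φ‖ * ‖U‖ := by positivity
    rcases (norm_nonneg U).eq_or_lt with h0 | h0
    · have : U = 0 := norm_eq_zero.1 h0.symm
      rw [this, map_zero]
    · set V : I →ᵇ ℝ := ‖U‖⁻¹ • U with hV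
      have hV0 : ∀ i, 0 ≤ V i := fun i => by
        rw [hV]
        have := hU i
        simp only [BoundedContinuousFunction.coe_smul, smul_eq_mul]
        have h2 : (0 : ℝ) ≤ U i := this
        positivity
      have hV1 : ∀ i, V i ≤ 1 := fun i => by
        rw [hV]
        simp only [BoundedContinuousFunction.coe_smul, smul_eq_mul]
        rw [inv_mul_le_iff₀ h0, mul_one]
        exact (Real.le_norm_self _).trans (U.norm_coe_le_norm i)
      have h1 : l (1 - V) ≤ ‖φ‖ := by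
        refine (hlnorm _).trans ?_
        have : ‖(1 : I →ᵇ ℝ) - V‖ ≤ 1 := by
          rw [BoundedContinuousFunction.norm_le zero_le_one]
          intro i
          have e : ((1 : I →ᵇ ℝ) - V) i = 1 - V i := rfl
          rw [e, Real.norm_eq_abs, abs_le]
          constructor <;> linarith [hV0 i, hV1 i]
        calc ‖φ‖ * ‖(1 : I →ᵇ ℝ) - V‖ ≤ ‖φ‖ * 1 := by gcongr
          _ = ‖φ‖ := mul_one _
      rw [map_sub, hl1] at h1
      have h2 : 0 ≤ l V := by linarith
      have h3 : U = ‖U‖ • V := by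
        rw [hV, smul_smul, mul_inv_cancel₀ h0.ne', one_smul]
      rw [h3, map_smul, smul_eq_mul]
      positivity
  · -- domination for the unit ball
    have key : ∀ G : I →ᵇ H, ‖G‖ ≤ 1 → φ G ≤ l G.normComp := by
      intro G hG
      have h1 : ∀ n, φ (F n) - φ (mulL G.normComp (F n)) + φ G ≤ ‖φ‖ := by
        intro n
        have e : φ (F n) - φ (mulL G.normComp (F n)) + φ G
            = φ (F n - mulL G.normComp (F n) + G) := by
          rw [map_add, map_sub]
        rw [e]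
        have hn : ‖F n - mulL G.normComp (F n) + G‖ ≤ 1 := by
          rw [BoundedContinuousFunction.norm_le zero_le_one]
          intro i
          have e2 : (F n - mulL G.normComp (F n) + G) i
              = (1 - ‖G i‖) • (F n i) + G i := by
            change F n i - ‖G i‖ • F n i + G i = _
            rw [sub_smul, one_smul]
          rw [e2]
          have hGi : ‖G i‖ ≤ 1 := (G.norm_coe_le_norm i).trans hG
          have hFi : ‖F n i‖ ≤ 1 := ((F n).norm_coe_le_norm i).trans (hF1 n)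
          calc ‖(1 - ‖G i‖) • (F n i) + G i‖ ≤ ‖(1 - ‖G i‖) • (F n i)‖ + ‖G i‖ := norm_add_le _ _
            _ = (1 - ‖G i‖) * ‖F n i‖ + ‖G i‖ := by
                rw [norm_smul, Real.norm_of_nonneg (by linarith)]
            _ ≤ (1 - ‖G i‖) * 1 + ‖G i‖ := by
                gcongr
            _ = 1 := by ring
        calc φ (F n - mulL G.normComp (F n) + G)
            ≤ ‖φ (F n - mulL G.normComp (F n) + G)‖ := Real.le_norm_self _
          _ ≤ ‖φ‖ * ‖F n - mulL G.normComp (F n) + G‖ := φ.le_opNorm _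
          _ ≤ ‖φ‖ * 1 := by gcongr
          _ = ‖φ‖ := mul_one _
      have h2 : Tendsto (fun n => φ (F n) - φ (mulL G.normComp (F n)) + φ G) u
          (𝓝 (‖φ‖ - l G.normComp + φ G)) := (hφ.sub (hl _)).add_const _
      have h3 := le_of_tendsto h2 (Eventually.of_forall h1)
      linarith
    have key2 : ∀ G : I →ᵇ H, φ G ≤ l G.normComp := by
      intro G
      rcases (norm_nonneg G).eq_or_lt with h0 | h0
      · have : G = 0 := norm_eq_zero.1 h0.symm
        have h4 : (0 : I →ᵇ H).normComp = 0 := by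
          ext i
          simp
        rw [this, map_zero, h4, map_zero]
      · have h5 := key (‖G‖⁻¹ • G) (by
          rw [norm_smul, norm_inv, norm_norm, inv_mul_cancel₀ h0.ne'])
        have h6 : (‖G‖⁻¹ • G).normComp = ‖G‖⁻¹ • G.normComp := by
          ext i
          simp [norm_smul]
        rw [h6, map_smul, map_smul, smul_eq_mul, smul_eq_mul] at h5
        exact le_of_mul_le_mul_left h5 (inv_pos.2 h0)
    intro G
    rw [abs_le]
    constructor
    · have := key2 (-G)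
      have h7 : (-G).normComp = G.normComp := by
        ext i
        simp
      rw [map_neg, h7] at this
      linarith
    · exact key2 G

end

end Pool.Agent.Lib.MP_92fb3f_an
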