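import Mathlib
import Pool.Agent.Lib.MP_92fb3f_an.Polar

set_option autoImplicit false
set_option linter.unusedSectionVars false

open TopologicalSpace Filter Topology BoundedContinuousFunction

namespace Pool.Agent.Lib.MP_92fb3f_an

/-- Splitting a functional dominated by a sum of two sublinear functionals. -/
theorem exists_split {E : Type*} [AddCommGroup E] [Module ℝ E] (p q : E → ℝ)
    (hp1 : ∀ c : ℝ, 0 < c → ∀ x, p (c • x) = c * p x) (hp2 : ∀ x y, p (x + y) ≤ p x + p y)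
    (hp0 : p 0 = 0)
    (hq1 : ∀ c : ℝ, 0 < c → ∀ x, q (c • x) = c * q x) (hq2 : ∀ x y, q (x + y) ≤ q x + q y)
    (hq0 : q 0 = 0)
    (f : E →ₗ[ℝ] ℝ) (hf : ∀ x, f x ≤ p x + q x) :
    ∃ g : E →ₗ[ℝ] ℝ, (∀ x, g x ≤ p x) ∧ ∀ x, f x - g x ≤ q x := by
  let D : Submodule ℝ (E × E) := LinearMap.range (LinearMap.prod LinearMap.id LinearMap.id)
  have hD : ∀ z ∈ D, z.2 = z.1 := by
    rintro z ⟨x, rfl⟩
    rfl
  let F : (E × E) →ₗ.[ℝ] ℝ :=
    { domain := D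
      toFun := (f.comp (LinearMap.fst ℝ E E)).comp D.subtype }
  obtain ⟨g, hg1, hg2⟩ := exists_extension_of_le_sublinear F (fun z => p z.1 + q z.2)
    (fun c hc z => by
      change p (c • z.1) + q (c • z.2) = _
      rw [hp1 c hc, hq1 c hc]; ring)
    (fun z w => by
      change p (z.1 + w.1) + q (z.2 + w.2) ≤ _
      have := hp2 z.1 w.1
      have := hq2 z.2 w.2
      linarith)
    (fun z => by
      change f z.1.1 ≤ p z.1.1 + q z.1.2
      have := hD z.1 z.2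
      rw [this]
      exact hf _)
  refine ⟨g.comp (LinearMap.inl ℝ E E), fun x => ?_, fun x => ?_⟩
  · have := hg2 (x, 0)
    simpa [hq0] using this
  · have h1 : g (x, x) = f x := hg1 ⟨(x, x), ⟨x, rfl⟩⟩
    have h2 := hg2 (0, x)
    simp only [hp0, zero_add] at h2
    have h3 : g (x, x) = g (x, 0) + g (0, x) := by
      rw [← map_add]
      simp
    have h4 : (g.comp (LinearMap.inl ℝ E E)) x = g (x, 0) := rfl
    rw [h4]
    linarith

section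

variable {I H : Type*} [TopologicalSpace I]
  [NormedAddCommGroup H] [NormedSpace ℝ H]

/-- positivity of a functional -/
def Pos (l : (I →ᵇ ℝ) →L[ℝ] ℝ) : Prop := ∀ U, 0 ≤ U → 0 ≤ l U

theorem Pos.mono {l : (I →ᵇ ℝ) →L[ℝ] ℝ} (hl : Pos l) {U V : I →ᵇ ℝ} (h : U ≤ V) : l U ≤ l V := by
  have := hl (V - U) (fun i => by
    have := h i
    change (0 : ℝ) ≤ V i - U i
    have h2 : U i ≤ V i := this
    linarith)
  rw [map_sub] at this
  linarith

theorem normComp_mulL {U : I →ᵇ ℝ} (hU : 0 ≤ U) (F : I →ᵇ H) :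
    (mulL U F).normComp = U * F.normComp := by
  ext i
  have hi : (0 : ℝ) ≤ U i := hU i
  simp [norm_smul, abs_of_nonneg hi]

theorem normComp_add_le (F G : I →ᵇ H) : (F + G).normComp ≤ F.normComp + G.normComp := by
  intro i
  exact norm_add_le (F i) (G i)

theorem normComp_smul (c : ℝ) (F : I →ᵇ H) : (c • F).normComp = |c| • F.normComp := by
  ext i
  simp [norm_smul]

theorem normComp_nonneg (F : I →ᵇ H) : 0 ≤ F.normComp := fun i => norm_nonneg (F i)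

theorem normComp_zero : (0 : I →ᵇ H).normComp = 0 := by
  ext i
  simp

/-- `μ`-dominated functionals. -/
def Dom (μ : (I →ᵇ ℝ) →L[ℝ] ℝ) : Submodule ℝ ((I →ᵇ H) →L[ℝ] ℝ) where
  carrier := {ψ | ∃ C : ℝ, 0 ≤ C ∧ ∀ F : I →ᵇ H, |ψ F| ≤ C * μ F.normComp}
  add_mem' := by
    rintro ψ φ ⟨C, hC0, hC⟩ ⟨D, hD0, hD⟩
    refine ⟨C + D, by positivity, fun F => ?_⟩
    calc |(ψ + φ) F| ≤ |ψ F| + |φ F| := abs_add_le _ _
      _ ≤ C * μ F.normComp + D * μ F.normComp := add_le_add (hC F) (hD F)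
      _ = (C + D) * μ F.normComp := by ring
  zero_mem' := ⟨0, le_rfl, fun F => by simp⟩
  smul_mem' := by
    rintro c ψ ⟨C, hC0, hC⟩
    refine ⟨|c| * C, by positivity, fun F => ?_⟩
    have : (c • ψ) F = c * ψ F := rfl
    rw [this, abs_mul, mul_assoc]
    gcongr
    exact hC F

theorem mem_Dom {μ : (I →ᵇ ℝ) →L[ℝ] ℝ} {ψ : (I →ᵇ H) →L[ℝ] ℝ} :
    ψ ∈ Dom μ ↔ ∃ C : ℝ, 0 ≤ C ∧ ∀ F : I →ᵇ H, |ψ F| ≤ C * μ F.normComp := Iff.rfl

theorem opNorm_comp_mulL_le_of_polar {φ : (I →ᵇ H) →L[ℝ] ℝ} {l : (I →ᵇ ℝ) →L[ℝ] ℝ} (hl : Pos l)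
    {C : ℝ} (hC : 0 ≤ C) (h : ∀ F : I →ᵇ H, |φ F| ≤ C * l F.normComp) {U : I →ᵇ ℝ} (hU : 0 ≤ U) :
    ‖φ.comp (mulL U)‖ ≤ C * l U := by
  have hlU := hl U hU
  refine ContinuousLinearMap.opNorm_le_bound _ (by positivity) fun F => ?_
  calc ‖(φ.comp (mulL U)) F‖ = |φ (mulL U F)| := rfl
    _ ≤ C * l (mulL U F).normComp := h _
    _ ≤ C * l (‖F‖ • U) := by
        gcongr
        refine hl.mono ?_
        rw [normComp_mulL hU]
        intro i
        change U i * ‖F i‖ ≤ ‖F‖ * U i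
        rw [mul_comm]
        have hi : (0 : ℝ) ≤ U i := hU i
        gcongr
        exact F.norm_coe_le_norm i
    _ = C * l U * ‖F‖ := by
        rw [map_smul, smul_eq_mul]; ring

/-- `L`-decomposition of the norm. -/
theorem norm_split (φ : (I →ᵇ H) →L[ℝ] ℝ) {U : I →ᵇ ℝ} (h0 : 0 ≤ U) (h1 : U ≤ 1) :
    ‖φ.comp (mulL U)‖ + ‖φ.comp (mulL (1 - U))‖ ≤ ‖φ‖ := by
  obtain ⟨l, hl, hl1, hlF⟩ := exists_polar φ
  have hlF' : ∀ F : I →ᵇ H, |φ F| ≤ 1 * l F.normComp := by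
    intro F; rw [one_mul]; exact hlF F
  have e1 := opNorm_comp_mulL_le_of_polar hl zero_le_one hlF' h0
  have e2 := opNorm_comp_mulL_le_of_polar hl zero_le_one hlF' (U := 1 - U) (fun i => by
    have : U i ≤ 1 := h1 i
    change (0 : ℝ) ≤ 1 - U i
    linarith)
  have : l (1 - U) = ‖φ‖ - l U := by rw [map_sub, hl1]
  rw [this] at e2
  linarith

theorem opNorm_comp_mulL_le (φ : (I →ᵇ H) →L[ℝ] ℝ) {U : I →ᵇ ℝ} (h0 : 0 ≤ U) (h1 : U ≤ 1) :
    ‖φ.comp (mulL U)‖ ≤ ‖φ‖ := by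
  have := norm_split φ h0 h1
  have h2 := norm_nonneg (φ.comp (mulL (1 - U) : (I →ᵇ H) →L[ℝ] (I →ᵇ H)))
  linarith

/-- A functional with `|f F| ≤ k μ(|F|) + δ ‖F‖` is `δ`-close to a `μ`-dominated one. -/
theorem exists_dom_close {μ : (I →ᵇ ℝ) →L[ℝ] ℝ} (hμ : Pos μ) (f : (I →ᵇ H) →L[ℝ] ℝ)
    {k δ : ℝ} (hk : 0 ≤ k) (hδ : 0 ≤ δ)
    (hf : ∀ F : I →ᵇ H, |f F| ≤ k * μ F.normComp + δ * ‖F‖) :
    ∃ ψ ∈ Dom (H := H) μ, ‖f - ψ‖ ≤ δ := by
  obtain ⟨g, hg1, hg2⟩ := exists_split (fun F : I →ᵇ H => k * μ F.normComp)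
    (fun F : I →ᵇ H => δ * ‖F‖)
    (fun c hc F => by
      change k * μ (c • F).normComp = c * (k * μ F.normComp)
      rw [normComp_smul, map_smul, abs_of_pos hc, smul_eq_mul]; ring)
    (fun F G => by
      change k * μ (F + G).normComp ≤ k * μ F.normComp + k * μ G.normComp
      have := hμ.mono (normComp_add_le F G)
      rw [map_add] at this
      rw [← mul_add]
      gcongr)
    (by
      change k * μ (0 : I →ᵇ H).normComp = 0
      rw [normComp_zero, map_zero, mul_zero])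
    (fun c hc F => by
      change δ * ‖c • F‖ = c * (δ * ‖F‖)
      rw [norm_smul, Real.norm_of_nonneg hc.le]; ring)
    (fun F G => by
      change δ * ‖F + G‖ ≤ δ * ‖F‖ + δ * ‖G‖
      rw [← mul_add]
      gcongr
      exact norm_add_le _ _)
    (by simp) (f : (I →ᵇ H) →ₗ[ℝ] ℝ) (fun F => (le_abs_self _).trans (hf F))
  have hneg : ∀ F : I →ᵇ H, (-F).normComp = F.normComp := fun F => by
    ext i; simp
  have hg1' : ∀ F : I →ᵇ H, |g F| ≤ k * μ F.normComp := by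
    intro F
    rw [abs_le]
    constructor
    · have := hg1 (-F)
      rw [map_neg] at this
      simp only [hneg] at this
      linarith
    · exact hg1 F
  have hμn : ∀ F : I →ᵇ H, μ F.normComp ≤ ‖μ‖ * ‖F‖ := by
    intro F
    calc μ F.normComp ≤ ‖μ F.normComp‖ := Real.le_norm_self _
      _ ≤ ‖μ‖ * ‖F.normComp‖ := μ.le_opNorm _
      _ = ‖μ‖ * ‖F‖ := by rw [BoundedContinuousFunction.norm_normComp]
  let ψ : (I →ᵇ H) →L[ℝ] ℝ := g.mkContinuous (k * ‖μ‖) (fun F => by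
    calc ‖g F‖ = |g F| := rfl
      _ ≤ k * μ F.normComp := hg1' F
      _ ≤ k * (‖μ‖ * ‖F‖) := by gcongr; exact hμn F
      _ = k * ‖μ‖ * ‖F‖ := by ring)
  refine ⟨ψ, ⟨k, hk, hg1'⟩, ?_⟩
  refine ContinuousLinearMap.opNorm_le_bound _ hδ fun F => ?_
  have e1 : (f - ψ) F = f F - g F := rfl
  rw [e1, Real.norm_eq_abs, abs_le]
  constructor
  · have := hg2 (-F)
    rw [map_neg, map_neg] at this
    simp only [norm_neg] at this
    have h3 : (f : (I →ᵇ H) →ₗ[ℝ] ℝ) F = f F := rfl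
    rw [h3] at this
    linarith
  · exact hg2 F

/-- Lemma D of the plan. -/
theorem exists_near_max {μ : (I →ᵇ ℝ) →L[ℝ] ℝ} (hμ : Pos μ) (χ : (I →ᵇ H) →L[ℝ] ℝ)
    {k δ : ℝ} (hk : 0 < k) (hδ : 0 < δ) :
    ∃ U : I →ᵇ ℝ, 0 ≤ U ∧ U ≤ 1 ∧ k * μ U ≤ ‖χ‖ + δ ∧
      ∃ ψ ∈ Dom (H := H) μ, ‖χ.comp (mulL (1 - U)) - ψ‖ ≤ δ := by
  obtain ⟨l, hl', hl1, hlF⟩ := exists_polar χ
  have hl : Pos l := hl'
  -- near maximiser of `l U - k μ U`
  let S : Set ℝ := (fun U : I →ᵇ ℝ => l U - k * μ U) '' {U | 0 ≤ U ∧ U ≤ 1}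
  have hz : (0 : ℝ) ∈ S := ⟨0, ⟨le_rfl, fun i => zero_le_one⟩, by simp⟩
  have hbdd : BddAbove S := by
    refine ⟨‖χ‖, ?_⟩
    rintro _ ⟨U, ⟨h0, h1⟩, rfl⟩
    have e1 : l U ≤ l 1 := hl.mono h1
    have e2 := hμ U h0
    have e3 : 0 ≤ k * μ U := by positivity
    change l U - k * μ U ≤ ‖χ‖
    linarith
  obtain ⟨s, ⟨U, ⟨h0, h1⟩, rfl⟩, hU⟩ := exists_lt_of_lt_csSup ⟨0, hz⟩ (sub_lt_self (sSup S) hδ)
  have hs0 : 0 ≤ sSup S := le_csSup hbdd hz
  have hUl : l U ≤ ‖χ‖ := by rw [← hl1]; exact hl.mono h1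
  have hU' : sSup S - δ < l U - k * μ U := hU
  refine ⟨U, h0, h1, by linarith, ?_⟩
  have h1U : (0 : I →ᵇ ℝ) ≤ 1 - U := fun i => by
    have : U i ≤ 1 := h1 i
    change (0 : ℝ) ≤ 1 - U i
    linarith
  -- the estimate on the unit ball
  have est1 : ∀ F : I →ᵇ H, ‖F‖ ≤ 1 → |χ (mulL (1 - U) F)| ≤ k * μ F.normComp + δ := by
    intro F hF
    set V : I →ᵇ ℝ := (1 - U) * F.normComp with hV
    have hV0 : 0 ≤ V := fun i => by
      have a1 : (0 : ℝ) ≤ (1 - U) i := h1U i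
      change (0 : ℝ) ≤ (1 - U) i * ‖F i‖
      positivity
    have hFi : ∀ i, ‖F i‖ ≤ 1 := fun i => (F.norm_coe_le_norm i).trans hF
    have hVU : U + V ≤ 1 := fun i => by
      have a1 : (0 : ℝ) ≤ (1 - U) i := h1U i
      have a2 := hFi i
      change U i + (1 - U) i * ‖F i‖ ≤ 1
      have a3 : (1 - U) i = 1 - U i := rfl
      have a4 : (1 - U) i * ‖F i‖ ≤ (1 - U) i * 1 := by gcongr
      rw [a3] at a4 ⊢
      linarith
    have hVF : V ≤ F.normComp := fun i => by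
      have a0 : (0 : ℝ) ≤ U i := h0 i
      have a2 := norm_nonneg (F i)
      change (1 - U i) * ‖F i‖ ≤ ‖F i‖
      nlinarith
    have hm : l (U + V) - k * μ (U + V) ≤ sSup S := by
      refine le_csSup hbdd ⟨U + V, ⟨?_, hVU⟩, rfl⟩
      intro i
      have a0 : (0 : ℝ) ≤ U i := h0 i
      have a1 : (0 : ℝ) ≤ V i := hV0 i
      change (0 : ℝ) ≤ U i + V i
      linarith
    rw [map_add, map_add] at hm
    have hVμ := hμ.mono hVF
    calc |χ (mulL (1 - U) F)| ≤ l (mulL (1 - U) F).normComp := hlF _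
      _ = l V := by rw [normComp_mulL h1U]
      _ ≤ k * μ V + δ := by nlinarith
      _ ≤ k * μ F.normComp + δ := by gcongr
  refine exists_dom_close hμ (χ.comp (mulL (1 - U))) hk.le hδ.le ?_
  intro F
  rcases (norm_nonneg F).eq_or_lt with hF0 | hF0
  · have : F = 0 := norm_eq_zero.1 hF0.symm
    rw [this]
    simp [normComp_zero]
  · have h5 := est1 (‖F‖⁻¹ • F) (by
      rw [norm_smul, norm_inv, norm_norm, inv_mul_cancel₀ hF0.ne'])
    rw [normComp_smul, map_smul, map_smul, map_smul, smul_eq_mul, smul_eq_mul, abs_mul,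
      abs_of_pos (inv_pos.2 hF0)] at h5
    change |χ (mulL (1 - U) F)| ≤ k * μ F.normComp + δ * ‖F‖
    have h6 : ‖F‖ * (‖F‖⁻¹ * |χ (mulL (1 - U) F)|) ≤ ‖F‖ * (k * (‖F‖⁻¹ * μ F.normComp) + δ) := by
      gcongr
    have e1 : ‖F‖ * (‖F‖⁻¹ * |χ (mulL (1 - U) F)|) = |χ (mulL (1 - U) F)| := by
      field_simp
    have e2 : ‖F‖ * (k * (‖F‖⁻¹ * μ F.normComp) + δ) = k * μ F.normComp + δ * ‖F‖ := by
      field_simp
    rw [e1, e2] at h6
    exact h6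

end

end Pool.Agent.Lib.MP_92fb3f_an
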