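import Mathlib
import Pool.Agent.Lib.MP_92fb3f_an.Lebesgue

set_option autoImplicit false
set_option linter.unusedSectionVars false

open TopologicalSpace Filter Topology BoundedContinuousFunction

namespace Pool.Agent.Lib.MP_92fb3f_an

section

variable {I H : Type*} [TopologicalSpace I]
  [NormedAddCommGroup H] [NormedSpace ℝ H]

theorem one_sub_nonneg' {U : I →ᵇ ℝ} (h1 : U ≤ 1) : 0 ≤ 1 - U := fun i => by
  have : U i ≤ 1 := h1 i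
  change (0 : ℝ) ≤ 1 - U i
  linarith

theorem one_sub_le_one' {U : I →ᵇ ℝ} (h0 : 0 ≤ U) : 1 - U ≤ 1 := fun i => by
  have : (0 : ℝ) ≤ U i := h0 i
  change (1 : ℝ) - U i ≤ 1
  linarith

theorem mul_nonneg' {U V : I →ᵇ ℝ} (h0 : 0 ≤ U) (h1 : 0 ≤ V) : 0 ≤ U * V := fun i => by
  have a : (0 : ℝ) ≤ U i := h0 i
  have b : (0 : ℝ) ≤ V i := h1 i
  change (0 : ℝ) ≤ U i * V i
  positivity

theorem mul_le_one' {U V : I →ᵇ ℝ} (h0 : 0 ≤ U) (h0' : U ≤ 1) (h1 : 0 ≤ V) (h1' : V ≤ 1) :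
    U * V ≤ 1 := fun i => by
  have a : (0 : ℝ) ≤ U i := h0 i
  have b : (0 : ℝ) ≤ V i := h1 i
  have a' : U i ≤ 1 := h0' i
  have b' : V i ≤ 1 := h1' i
  change U i * V i ≤ (1 : ℝ)
  nlinarith

/-- norm is bounded by the two pieces -/
theorem norm_le_pieces (φ : (I →ᵇ H) →L[ℝ] ℝ) (U : I →ᵇ ℝ) :
    ‖φ‖ ≤ ‖φ.comp (mulL U)‖ + ‖φ.comp (mulL (1 - U))‖ := by
  have : φ = φ.comp (mulL U) + φ.comp (mulL (1 - U)) := by
    ext F
    change φ F = φ (mulL U F) + φ (mulL (1 - U) F)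
    rw [← map_add, ← mulL_add, add_sub_cancel, mulL_one]
  calc ‖φ‖ = ‖φ.comp (mulL U) + φ.comp (mulL (1 - U))‖ := by rw [← this]
    _ ≤ _ := norm_add_le _ _

theorem comp_mulL_mulL (φ : (I →ᵇ H) →L[ℝ] ℝ) (U V : I →ᵇ ℝ) :
    φ.comp (mulL (U * V)) = (φ.comp (mulL U)).comp (mulL V) := by
  ext F
  change φ (mulL (U * V) F) = φ (mulL U (mulL V F))
  rw [mulL_mulL]

theorem one_sub_mul_le {U V : I →ᵇ ℝ} (h0 : 0 ≤ U) (h0' : 0 ≤ V) :
    1 - (1 - U) * (1 - V) ≤ U + V := fun i => by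
  have a : (0 : ℝ) ≤ U i := h0 i
  have b : (0 : ℝ) ≤ V i := h0' i
  change (1 : ℝ) - (1 - U i) * (1 - V i) ≤ U i + V i
  nlinarith

/-- Given `U`, `V`, both functionals are small after multiplying by `(1-U)(1-V)`. -/
theorem comp_prod_le (φ : (I →ᵇ H) →L[ℝ] ℝ) {U V : I →ᵇ ℝ} (h0' : 0 ≤ V) (h1' : V ≤ 1) :
    ‖φ.comp (mulL ((1 - U) * (1 - V)))‖ ≤ ‖φ.comp (mulL (1 - U))‖ := by
  rw [comp_mulL_mulL]
  exact opNorm_comp_mulL_le _ (one_sub_nonneg' h1') (one_sub_le_one' h0')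

theorem comp_prod_le' (φ : (I →ᵇ H) →L[ℝ] ℝ) {U V : I →ᵇ ℝ} (h0 : 0 ≤ U) (h1 : U ≤ 1) :
    ‖φ.comp (mulL ((1 - U) * (1 - V)))‖ ≤ ‖φ.comp (mulL (1 - V))‖ := by
  rw [mul_comm]
  exact comp_prod_le φ h0 h1

/-- `μ`-singular functionals. -/
def Sing (μ : (I →ᵇ ℝ) →L[ℝ] ℝ) (hμ : Pos μ) : Submodule ℝ ((I →ᵇ H) →L[ℝ] ℝ) where
  carrier := {φ | ∀ ε : ℝ, 0 < ε → ∃ U : I →ᵇ ℝ, 0 ≤ U ∧ U ≤ 1 ∧ μ U ≤ ε ∧
    ‖φ.comp (mulL (1 - U))‖ ≤ ε}
  add_mem' := by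
    intro φ ψ hφ hψ ε hε
    obtain ⟨U, hU0, hU1, hU2, hU3⟩ := hφ (ε / 2) (by positivity)
    obtain ⟨V, hV0, hV1, hV2, hV3⟩ := hψ (ε / 2) (by positivity)
    refine ⟨1 - (1 - U) * (1 - V), ?_, ?_, ?_, ?_⟩
    · exact one_sub_nonneg' (mul_le_one' (one_sub_nonneg' hU1) (one_sub_le_one' hU0)
        (one_sub_nonneg' hV1) (one_sub_le_one' hV0))
    · exact one_sub_le_one' (mul_nonneg' (one_sub_nonneg' hU1) (one_sub_nonneg' hV1))
    · have := hμ.mono (one_sub_mul_le hU0 hV0)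
      rw [map_add] at this
      linarith
    · rw [sub_sub_cancel]
      have e : (φ + ψ).comp (mulL ((1 - U) * (1 - V))) =
        φ.comp (mulL ((1 - U) * (1 - V))) + ψ.comp (mulL ((1 - U) * (1 - V))) := rfl
      rw [e]
      have h1 := comp_prod_le φ (U := U) hV0 hV1
      have h2 := comp_prod_le' ψ (V := V) hU0 hU1
      have h3 := norm_add_le (φ.comp (mulL ((1 - U) * (1 - V)) : (I →ᵇ H) →L[ℝ] (I →ᵇ H)))
        (ψ.comp (mulL ((1 - U) * (1 - V))))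
      linarith
  zero_mem' := by
    intro ε hε
    refine ⟨0, le_rfl, fun i => zero_le_one, ?_, ?_⟩
    · rw [map_zero]; exact hε.le
    · have e : (0 : (I →ᵇ H) →L[ℝ] ℝ).comp (mulL (1 - 0)) = 0 := rfl
      rw [e, norm_zero]
      exact hε.le
  smul_mem' := by
    intro c φ hφ ε hε
    obtain ⟨U, hU0, hU1, hU2, hU3⟩ := hφ (min ε (ε / (|c| + 1))) (by positivity)
    refine ⟨U, hU0, hU1, hU2.trans (min_le_left _ _), ?_⟩
    have e : (c • φ).comp (mulL (1 - U)) = c • (φ.comp (mulL (1 - U))) := rfl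
    rw [e, norm_smul, Real.norm_eq_abs]
    calc |c| * ‖φ.comp (mulL (1 - U))‖ ≤ |c| * (ε / (|c| + 1)) := by
          gcongr
          exact hU3.trans (min_le_right _ _)
      _ ≤ (|c| + 1) * (ε / (|c| + 1)) := by
          gcongr
          linarith
      _ = ε := by field_simp

theorem norm_le_of_dom_sing {μ : (I →ᵇ ℝ) →L[ℝ] ℝ} (hμ : Pos μ)
    {φ ψ : (I →ᵇ H) →L[ℝ] ℝ} (hφ : φ ∈ (Dom (H := H) μ).topologicalClosure)
    (hψ : ψ ∈ Sing μ hμ) : ‖φ‖ ≤ ‖φ + ψ‖ := by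
  have hcl : IsClosed {φ : (I →ᵇ H) →L[ℝ] ℝ | ‖φ‖ ≤ ‖φ + ψ‖} :=
    isClosed_le (by fun_prop) (by fun_prop)
  have hsub : ((Dom (H := H) μ : Submodule ℝ ((I →ᵇ H) →L[ℝ] ℝ)) : Set _) ⊆
      {φ : (I →ᵇ H) →L[ℝ] ℝ | ‖φ‖ ≤ ‖φ + ψ‖} := by
    rintro φ ⟨C, hC0, hC⟩
    change ‖φ‖ ≤ ‖φ + ψ‖
    refine le_of_forall_pos_le_add fun ε hε => ?_
    obtain ⟨U, hU0, hU1, hU2, hU3⟩ := hψ (ε / (C + 1)) (by positivity)
    have h1 := norm_le_pieces φ U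
    have h2 : ‖φ.comp (mulL U)‖ ≤ C * μ U := opNorm_comp_mulL_le_of_polar hμ hC0 hC hU0
    have h3 : ‖φ.comp (mulL (1 - U))‖ ≤ ‖(φ + ψ).comp (mulL (1 - U))‖
        + ‖ψ.comp (mulL (1 - U))‖ := by
      have e : φ.comp (mulL (1 - U)) = (φ + ψ).comp (mulL (1 - U)) - ψ.comp (mulL (1 - U)) := by
        ext F
        change φ (mulL (1 - U) F) = φ (mulL (1 - U) F) + ψ (mulL (1 - U) F) - ψ (mulL (1 - U) F)
        ring
      rw [e]
      exact norm_sub_le _ _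
    have h4 := opNorm_comp_mulL_le (φ + ψ) (one_sub_nonneg' hU1) (one_sub_le_one' hU0)
    have h5 : C * μ U ≤ C * (ε / (C + 1)) := by gcongr
    have h6 : C * (ε / (C + 1)) + ε / (C + 1) = ε := by field_simp
    change ‖φ‖ ≤ ‖φ + ψ‖ + ε
    linarith
  exact closure_minimal hsub hcl hφ

/-- A functional nearly orthogonal to `Dom` is nearly singular. -/
theorem exists_small_of_near {μ : (I →ᵇ ℝ) →L[ℝ] ℝ} (hμ : Pos μ) {χ : (I →ᵇ H) →L[ℝ] ℝ}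
    {ε : ℝ} (hε : 0 < ε) (hχ : ∀ ψ ∈ Dom (H := H) μ, ‖χ‖ ≤ ‖χ - ψ‖ + ε) {η : ℝ} (hη : 0 < η) :
    ∃ U : I →ᵇ ℝ, 0 ≤ U ∧ U ≤ 1 ∧ μ U ≤ η ∧ ‖χ.comp (mulL (1 - U))‖ ≤ 2 * ε := by
  have hpos : 0 < ‖χ‖ + ε := by positivity
  obtain ⟨U, hU0, hU1, hU2, ψ, hψ1, hψ2⟩ := exists_near_max hμ χ (k := (‖χ‖ + ε) / η) (δ := ε)
    (by positivity) hε
  refine ⟨U, hU0, hU1, ?_, ?_⟩
  · have e : (‖χ‖ + ε) / η * μ U = (‖χ‖ + ε) * (μ U / η) := by field_simp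
    rw [e] at hU2
    have h1 : μ U / η ≤ 1 := by
      by_contra hcon
      push Not at hcon
      nlinarith
    rwa [div_le_one hη] at h1
  · have h1 := norm_split χ hU0 hU1
    have h2 := hχ ψ hψ1
    have h3 : ‖χ - ψ‖ ≤ ‖χ.comp (mulL U)‖ + ‖χ.comp (mulL (1 - U)) - ψ‖ := by
      have e : χ - ψ = χ.comp (mulL U) + (χ.comp (mulL (1 - U)) - ψ) := by
        ext F
        change χ F - ψ F = χ (mulL U F) + (χ (mulL (1 - U) F) - ψ F)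
        have : χ (mulL U F) + χ (mulL (1 - U) F) = χ F := by
          rw [← map_add, ← mulL_add, add_sub_cancel, mulL_one]
        rw [← this]; ring
      rw [e]
      exact norm_add_le _ _
    linarith

theorem norm_sub_le_of_near {μ : (I →ᵇ ℝ) →L[ℝ] ℝ} (hμ : Pos μ) {χ χ' : (I →ᵇ H) →L[ℝ] ℝ}
    {ε ε' : ℝ} (hε : 0 < ε) (hε' : 0 < ε') (hχ : ∀ ψ ∈ Dom (H := H) μ, ‖χ‖ ≤ ‖χ - ψ‖ + ε)
    (hχ' : ∀ ψ ∈ Dom (H := H) μ, ‖χ'‖ ≤ ‖χ' - ψ‖ + ε') (hd : χ - χ' ∈ Dom (H := H) μ) :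
    ‖χ - χ'‖ ≤ 2 * ε + 2 * ε' := by
  obtain ⟨C, hC0, hC⟩ := hd
  refine le_of_forall_pos_le_add fun η hη => ?_
  obtain ⟨U, hU0, hU1, hU2, hU3⟩ := exists_small_of_near hμ hε hχ
    (η := η / (2 * (C + 1))) (by positivity)
  obtain ⟨V, hV0, hV1, hV2, hV3⟩ := exists_small_of_near hμ hε' hχ'
    (η := η / (2 * (C + 1))) (by positivity)
  have h1 := norm_le_pieces (χ - χ') ((1 - U) * (1 - V))
  have h2 : ‖(χ - χ').comp (mulL (1 - (1 - U) * (1 - V)))‖ ≤ C * μ (1 - (1 - U) * (1 - V)) :=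
    opNorm_comp_mulL_le_of_polar hμ hC0 hC (one_sub_nonneg' (mul_le_one' (one_sub_nonneg' hU1)
      (one_sub_le_one' hU0) (one_sub_nonneg' hV1) (one_sub_le_one' hV0)))
  have h3 : μ (1 - (1 - U) * (1 - V)) ≤ η / (C + 1) := by
    have := hμ.mono (one_sub_mul_le hU0 hV0)
    rw [map_add] at this
    have e : η / (2 * (C + 1)) + η / (2 * (C + 1)) = η / (C + 1) := by field_simp; ring
    linarith
  have h4 : C * μ (1 - (1 - U) * (1 - V)) ≤ η := by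
    calc C * μ (1 - (1 - U) * (1 - V)) ≤ C * (η / (C + 1)) := by gcongr
      _ ≤ (C + 1) * (η / (C + 1)) := by gcongr; linarith
      _ = η := by field_simp
  have h5 : ‖(χ - χ').comp (mulL ((1 - U) * (1 - V)))‖ ≤
      ‖χ.comp (mulL ((1 - U) * (1 - V)))‖ + ‖χ'.comp (mulL ((1 - U) * (1 - V)))‖ := by
    have e : (χ - χ').comp (mulL ((1 - U) * (1 - V))) =
      χ.comp (mulL ((1 - U) * (1 - V))) - χ'.comp (mulL ((1 - U) * (1 - V))) := rfl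
    rw [e]
    exact norm_sub_le _ _
  have h6 := comp_prod_le χ (U := U) hV0 hV1
  have h7 := comp_prod_le' χ' (V := V) hU0 hU1
  linarith

theorem exists_decomp {μ : (I →ᵇ ℝ) →L[ℝ] ℝ} (hμ : Pos μ) (φ : (I →ᵇ H) →L[ℝ] ℝ) :
    ∃ φa ∈ (Dom (H := H) μ).topologicalClosure, φ - φa ∈ Sing μ hμ := by
  set D : Submodule ℝ ((I →ᵇ H) →L[ℝ] ℝ) := Dom (H := H) μ with hD
  have hne : (D : Set ((I →ᵇ H) →L[ℝ] ℝ)).Nonempty := ⟨0, D.zero_mem⟩
  set d := Metric.infDist φ (D : Set ((I →ᵇ H) →L[ℝ] ℝ)) with hd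
  have hε : ∀ n : ℕ, (0 : ℝ) < 1 / ((n : ℝ) + 1) := fun n => by positivity
  have hex : ∀ n : ℕ, ∃ ψ ∈ D, ‖φ - ψ‖ < d + 1 / ((n : ℝ) + 1) := by
    intro n
    have : Metric.infDist φ (D : Set ((I →ᵇ H) →L[ℝ] ℝ)) < d + 1 / ((n : ℝ) + 1) := by
      rw [← hd]
      linarith [hε n]
    obtain ⟨ψ, hψ, hψ2⟩ := (Metric.infDist_lt_iff hne).1 this
    exact ⟨ψ, hψ, by rwa [dist_eq_norm] at hψ2⟩
  choose ψ hψD hψn using hex
  have hnear : ∀ n, ∀ θ ∈ D, ‖φ - ψ n‖ ≤ ‖φ - ψ n - θ‖ + 1 / ((n : ℝ) + 1) := by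
    intro n θ hθ
    have h1 : d ≤ ‖φ - ψ n - θ‖ := by
      have := Metric.infDist_le_dist_of_mem (x := φ) (D.add_mem (hψD n) hθ)
      rw [dist_eq_norm] at this
      rwa [sub_sub]
    linarith [hψn n]
  have hcauchy : ∀ n m, ‖ψ n - ψ m‖ ≤ 2 * (1 / ((n : ℝ) + 1)) + 2 * (1 / ((m : ℝ) + 1)) := by
    intro n m
    have h1 := norm_sub_le_of_near hμ (hε n) (hε m) (hnear n) (hnear m) (by
      have e : φ - ψ n - (φ - ψ m) = ψ m - ψ n := by abel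
      rw [e]
      exact D.sub_mem (hψD m) (hψD n))
    have e : φ - ψ n - (φ - ψ m) = -(ψ n - ψ m) := by abel
    rwa [e, norm_neg] at h1
  have hC : CauchySeq ψ := by
    refine cauchySeq_of_le_tendsto_0 (fun n => 4 * (1 / ((n : ℝ) + 1))) ?_ ?_
    · intro n m N hn hm
      rw [dist_eq_norm]
      have h1 := hcauchy n m
      have h2 : 1 / ((n : ℝ) + 1) ≤ 1 / ((N : ℝ) + 1) := by gcongr
      have h3 : 1 / ((m : ℝ) + 1) ≤ 1 / ((N : ℝ) + 1) := by gcongr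
      linarith
    · have := (tendsto_one_div_add_atTop_nhds_zero_nat (𝕜 := ℝ)).const_mul 4
      simpa using this
  obtain ⟨φa, hφa⟩ := cauchySeq_tendsto_of_complete hC
  refine ⟨φa, ?_, ?_⟩
  · change φa ∈ closure (D : Set ((I →ᵇ H) →L[ℝ] ℝ))
    exact mem_closure_of_tendsto hφa (Eventually.of_forall hψD)
  · intro ε hεpos
    have ht : Tendsto (fun n => ‖ψ n - φa‖ + 2 * (1 / ((n : ℝ) + 1))) atTop (𝓝 (0 + 2 * 0)) := by
      refine Tendsto.add ?_ (tendsto_one_div_add_atTop_nhds_zero_nat.const_mul 2)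
      have := (hφa.sub_const φa).norm
      simpa using this
    rw [mul_zero, add_zero] at ht
    obtain ⟨n, hn⟩ := (ht.eventually (gt_mem_nhds hεpos)).exists
    obtain ⟨U, hU0, hU1, hU2, hU3⟩ := exists_small_of_near hμ (hε n) (hnear n) hεpos
    refine ⟨U, hU0, hU1, hU2, ?_⟩
    have e : (φ - φa).comp (mulL (1 - U)) = (φ - ψ n).comp (mulL (1 - U)) +
        (ψ n - φa).comp (mulL (1 - U)) := by
      ext F
      change φ (mulL (1 - U) F) - φa (mulL (1 - U) F) =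
        φ (mulL (1 - U) F) - ψ n (mulL (1 - U) F) + (ψ n (mulL (1 - U) F) - φa (mulL (1 - U) F))
      ring
    rw [e]
    have h1 := norm_add_le ((φ - ψ n).comp (mulL (1 - U) : (I →ᵇ H) →L[ℝ] (I →ᵇ H)))
      ((ψ n - φa).comp (mulL (1 - U)))
    have h2 := opNorm_comp_mulL_le (ψ n - φa) (one_sub_nonneg' hU1) (one_sub_le_one' hU0)
    linarith

end

theorem exists_proj_of_compl {N : Type*} [NormedAddCommGroup N] [NormedSpace ℝ N]
    (p q : Submodule ℝ N) (hc : IsCompl p q) (h : ∀ a ∈ p, ∀ b ∈ q, ‖a‖ ≤ ‖a + b‖) :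
    ∃ P : N →L[ℝ] p, ∀ x : p, P x = x := by
  let P0 : N →ₗ[ℝ] p := Submodule.projectionOnto _ _ hc
  have hP0 : ∀ φ, ‖P0 φ‖ ≤ 1 * ‖φ‖ := by
    intro φ
    rw [one_mul]
    have h1 : φ - (P0 φ : N) ∈ q := Submodule.sub_projection_mem hc φ
    have h2 := h _ (P0 φ).2 _ h1
    rw [add_sub_cancel] at h2
    exact h2
  refine ⟨P0.mkContinuous 1 hP0, ?_⟩
  intro φ
  exact Submodule.projectionOnto_apply_left hc φ

section

variable {I H : Type*} [TopologicalSpace I]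
  [NormedAddCommGroup H] [NormedSpace ℝ H]

/-- The closure of the dominated functionals is complemented. -/
theorem isCompl_dom_sing {μ : (I →ᵇ ℝ) →L[ℝ] ℝ} (hμ : Pos μ) :
    IsCompl (Dom (H := H) μ).topologicalClosure (Sing (H := H) μ hμ) := by
  constructor
  · rw [Submodule.disjoint_def]
    intro x hx hx2
    have := norm_le_of_dom_sing hμ hx ((Sing μ hμ).neg_mem hx2)
    rw [add_neg_cancel, norm_zero] at this
    exact norm_le_zero_iff.1 this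
  · rw [codisjoint_iff, eq_top_iff]
    intro φ _
    obtain ⟨φa, h1, h2⟩ := exists_decomp hμ φ
    rw [Submodule.mem_sup]
    exact ⟨φa, h1, φ - φa, h2, by abel⟩

end

end Pool.Agent.Lib.MP_92fb3f_an
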