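import Mathlib
import Pool.Agent.Lib.MP_92fb3f_an.Basic

set_option autoImplicit false
set_option linter.unusedSectionVars false

open TopologicalSpace Filter Topology
open scoped ENNReal

namespace Pool.Agent.Lib.MP_92fb3f_an

section lp1

variable {ι E F : Type*} [NormedAddCommGroup E] [NormedSpace ℝ E]
  [NormedAddCommGroup F] [NormedSpace ℝ F] [CompleteSpace F]

theorem lp1_hasSum_norm (x : lp (fun _ : ι => E) 1) : HasSum (fun i => ‖x i‖) ‖x‖ := by
  have := lp.hasSum_norm (p := 1) (by simp) x
  simpa using this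

theorem lp1_summable (A : ι → E →L[ℝ] F) {C : ℝ} (hA : ∀ i, ‖A i‖ ≤ C)
    (x : lp (fun _ : ι => E) 1) : Summable fun i => A i (x i) := by
  refine Summable.of_norm_bounded (g := fun i => C * ‖x i‖)
    ((lp1_hasSum_norm x).summable.mul_left C) fun i => ?_
  exact ((A i).le_opNorm _).trans (by gcongr; exact hA i)

/-- Sum of a uniformly bounded family of operators on an `ℓ¹`-sum. -/
noncomputable def sumL (A : ι → E →L[ℝ] F) (C : ℝ) (hA : ∀ i, ‖A i‖ ≤ C) :
    lp (fun _ : ι => E) 1 →L[ℝ] F :=
  LinearMap.mkContinuous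
    { toFun := fun x => ∑' i, A i (x i)
      map_add' := fun x y => by
        rw [← (lp1_summable A hA x).tsum_add (lp1_summable A hA y)]
        congr 1
        ext i
        rw [lp.coeFn_add, Pi.add_apply, map_add]
      map_smul' := fun c x => by
        rw [RingHom.id_apply, ← (lp1_summable A hA x).tsum_const_smul c]
        congr 1
        ext i
        rw [lp.coeFn_smul, Pi.smul_apply, map_smul] } C (fun x => by
      change ‖∑' i, A i (x i)‖ ≤ C * ‖x‖
      refine tsum_of_norm_bounded ((lp1_hasSum_norm x).mul_left C) fun i => ?_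
      exact ((A i).le_opNorm _).trans (by gcongr; exact hA i))

theorem sumL_hasSum (A : ι → E →L[ℝ] F) (C : ℝ) (hA : ∀ i, ‖A i‖ ≤ C)
    (x : lp (fun _ : ι => E) 1) : HasSum (fun i => A i (x i)) (sumL A C hA x) :=
  (lp1_summable A hA x).hasSum

theorem sumL_single [DecidableEq ι] (A : ι → E →L[ℝ] F) (C : ℝ) (hA : ∀ i, ‖A i‖ ≤ C)
    (i : ι) (a : E) : sumL A C hA (lp.single 1 i a) = A i a := by
  refine (sumL_hasSum A C hA _).unique ?_
  have : HasSum (fun j => if j = i then A i a else 0) (A i a) := hasSum_ite_eq i (A i a)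
  convert this using 1
  ext j
  by_cases h : j = i
  · subst h; simp
  · simp [h]

theorem norm_sumL_apply_le (A : ι → E →L[ℝ] F) (C : ℝ) (hA : ∀ i, ‖A i‖ ≤ C)
    (x : lp (fun _ : ι => E) 1) : ‖sumL A C hA x‖ ≤ C * ‖x‖ := by
  refine (sumL_hasSum A C hA x).norm_le_of_bounded ((lp1_hasSum_norm x).mul_left C) fun i => ?_
  exact ((A i).le_opNorm _).trans (by gcongr; exact hA i)

end lp1

section proj

variable {T : Type*}

/-- coordinate projection on `ℓ²(T)` -/
noncomputable def proj (A : Set T) : lp (fun _ : T => ℝ) 2 →L[ℝ] lp (fun _ : T => ℝ) 2 :=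
  LinearMap.mkContinuous
    { toFun := fun x => ⟨(A.indicator (x : T → ℝ) : T → ℝ), (lp.memℓp x).mono' (fun i => by
        exact norm_indicator_le_norm_self _ _)⟩
      map_add' := fun x y => by
        ext i
        exact congrFun (Set.indicator_add A (x : T → ℝ) (y : T → ℝ)) i
      map_smul' := fun c x => by
        ext i
        exact congrFun (Set.indicator_const_smul A c (x : T → ℝ)) i } 1 (fun x => by
      rw [one_mul]
      refine lp.norm_mono (p := 2) (by simp) fun i => ?_
      exact norm_indicator_le_norm_self _ _)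

theorem proj_apply (A : Set T) (x : lp (fun _ : T => ℝ) 2) (t : T) :
    proj A x t = A.indicator (x : T → ℝ) t := rfl

theorem norm_proj_le (A : Set T) : ‖proj A‖ ≤ 1 :=
  LinearMap.mkContinuous_norm_le _ zero_le_one _

theorem norm_proj_apply_le (A : Set T) (x : lp (fun _ : T => ℝ) 2) : ‖proj A x‖ ≤ ‖x‖ := by
  have := (proj A).le_opNorm x
  have h2 := norm_proj_le A
  nlinarith [norm_nonneg x]

theorem inner_proj (A : Set T) (x y : lp (fun _ : T => ℝ) 2) :
    inner ℝ (proj A x) y = inner ℝ x (proj A y) := by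
  rw [lp.inner_eq_tsum, lp.inner_eq_tsum]
  congr 1
  ext t
  rw [proj_apply, proj_apply]
  by_cases h : t ∈ A
  · simp [h]
  · simp [h]

variable [DecidableEq T]

theorem proj_finset (F : Finset T) (x : lp (fun _ : T => ℝ) 2) :
    proj (F : Set T) x = ∑ t ∈ F, lp.single 2 t (x t) := by
  ext t
  rw [proj_apply, lp.coeFn_sum, Finset.sum_apply]
  simp only [lp.single_apply]
  rw [Finset.sum_pi_single]
  simp [Set.indicator_apply]

theorem proj_tendsto (x : lp (fun _ : T => ℝ) 2) :
    Tendsto (fun F : Finset T => proj (F : Set T) x) atTop (𝓝 x) := by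
  have := lp.hasSum_single (p := 2) (by simp) x
  refine this.congr fun F => ?_
  rw [proj_finset]

theorem proj_single_mem {A : Set T} {t : T} (h : t ∈ A) (c : ℝ) :
    proj A (lp.single 2 t c) = lp.single 2 t c := by
  ext s
  rw [proj_apply]
  by_cases hs : s ∈ A
  · simp [hs]
  · have : s ≠ t := fun h' => hs (h' ▸ h)
    simp [hs, this]

theorem proj_single_not_mem {A : Set T} {t : T} (h : t ∉ A) (c : ℝ) :
    proj A (lp.single 2 t c) = 0 := by
  ext s
  rw [proj_apply]
  by_cases hs : s ∈ A
  · have : s ≠ t := fun h' => h (h' ▸ hs)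
    simp [hs, this]
  · simp [hs]

end proj

end Pool.Agent.Lib.MP_92fb3f_an
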