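import Mathlib
import Pool.Agent.Lib.MP_92fb3f_an.Space

set_option autoImplicit false
set_option linter.unusedSectionVars false

open TopologicalSpace Filter Topology
open scoped ENNReal

namespace Pool.Agent.Lib.MP_92fb3f_an

section hump

variable {ι E : Type*} [NormedAddCommGroup E] [NormedSpace ℝ E] [DecidableEq ι]

theorem hasSum_finset_part (F : Finset ι) (x : lp (fun _ : ι => E) 1) :
    HasSum (fun i => if i ∈ F then ‖x i‖ else 0) (∑ i ∈ F, ‖x i‖) := by
  have h : HasSum (fun i => if i ∈ F then ‖x i‖ else 0) (∑ i ∈ F, if i ∈ F then ‖x i‖ else 0) :=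
    hasSum_sum_of_ne_finset_zero (fun i hi => by simp [hi])
  have e : ∑ i ∈ F, (if i ∈ F then ‖x i‖ else 0) = ∑ i ∈ F, ‖x i‖ :=
    Finset.sum_congr rfl fun i hi => by simp [hi]
  rwa [e] at h

theorem sum_le_norm (F : Finset ι) (x : lp (fun _ : ι => E) 1) : ∑ i ∈ F, ‖x i‖ ≤ ‖x‖ :=
  sum_le_hasSum F (fun i _ => norm_nonneg _) (lp1_hasSum_norm x)

/-- the mass of `x` outside `F` -/
noncomputable def tail (F : Finset ι) (x : lp (fun _ : ι => E) 1) : ℝ := ‖x‖ - ∑ i ∈ F, ‖x i‖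

theorem tail_nonneg (F : Finset ι) (x : lp (fun _ : ι => E) 1) : 0 ≤ tail F x :=
  sub_nonneg.2 (sum_le_norm F x)

theorem tail_anti {F F' : Finset ι} (h : F ⊆ F') (x : lp (fun _ : ι => E) 1) :
    tail F' x ≤ tail F x := by
  unfold tail
  have := Finset.sum_le_sum_of_subset_of_nonneg h (f := fun i => ‖x i‖)
    (fun i _ _ => norm_nonneg _)
  linarith

theorem exists_tail_lt (F : Finset ι) (x : lp (fun _ : ι => E) 1) {ε : ℝ} (hε : 0 < ε) :
    ∃ F' : Finset ι, F ⊆ F' ∧ tail F' x < ε := by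
  have h : Tendsto (fun F : Finset ι => ∑ i ∈ F, ‖x i‖) atTop (𝓝 ‖x‖) := lp1_hasSum_norm x
  have h2 := h.eventually (lt_mem_nhds (sub_lt_self ‖x‖ hε))
  obtain ⟨F1, hF1⟩ := (h2.and (eventually_ge_atTop F)).exists
  refine ⟨F1, hF1.2, ?_⟩
  unfold tail
  linarith [hF1.1]

/-- The potential used in the gliding hump argument. -/
noncomputable def pot (F0 F : Finset ι) (x : lp (fun _ : ι => E) 1) : ℝ :=
  2 * (∑ i ∈ F, ‖x i‖) - (∑ i ∈ F0, ‖x i‖) - ‖x‖

theorem pot_le_norm (F0 F : Finset ι) (x : lp (fun _ : ι => E) 1) : pot F0 F x ≤ ‖x‖ := by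
  unfold pot
  have h1 := sum_le_norm F x
  have h2 : 0 ≤ ∑ i ∈ F0, ‖x i‖ := Finset.sum_nonneg fun i _ => norm_nonneg _
  linarith

theorem pot_step {F0 F F' : Finset ι} (h0 : F0 ⊆ F) (h1 : F ⊆ F') (w v : lp (fun _ : ι => E) 1) :
    pot F0 F w + (2 * tail F v - 2 * tail F' v - tail F0 v) ≤ pot F0 F' (w + v) := by
  have e1 : HasSum (fun i => (2 * (if i ∈ F then ‖w i‖ else 0) - (if i ∈ F0 then ‖w i‖ else 0)
      - ‖w i‖) + (2 * (‖v i‖ - (if i ∈ F then ‖v i‖ else 0)) -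
        2 * (‖v i‖ - (if i ∈ F' then ‖v i‖ else 0)) - (‖v i‖ - (if i ∈ F0 then ‖v i‖ else 0))))
      (pot F0 F w + (2 * tail F v - 2 * tail F' v - tail F0 v)) := by
    unfold pot tail
    exact ((((hasSum_finset_part F w).mul_left 2).sub (hasSum_finset_part F0 w)).sub
      (lp1_hasSum_norm w)).add
      (((((lp1_hasSum_norm v).sub (hasSum_finset_part F v)).mul_left 2).sub
        (((lp1_hasSum_norm v).sub (hasSum_finset_part F' v)).mul_left 2)).sub
        ((lp1_hasSum_norm v).sub (hasSum_finset_part F0 v)))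
  have e2 : HasSum (fun i => 2 * (if i ∈ F' then ‖(w + v) i‖ else 0) -
      (if i ∈ F0 then ‖(w + v) i‖ else 0) - ‖(w + v) i‖) (pot F0 F' (w + v)) := by
    unfold pot
    exact (((hasSum_finset_part F' (w + v)).mul_left 2).sub (hasSum_finset_part F0 (w + v))).sub
      (lp1_hasSum_norm (w + v))
  refine hasSum_le (fun i => ?_) e1 e2
  have hw : (w + v) i = w i + v i := by rw [lp.coeFn_add, Pi.add_apply]
  rw [hw]
  have n1 : ‖w i + v i‖ ≤ ‖w i‖ + ‖v i‖ := norm_add_le _ _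
  have n2 : ‖w i‖ - ‖v i‖ ≤ ‖w i + v i‖ := by
    have := norm_sub_le (w i + v i) (v i)
    rw [add_sub_cancel_right] at this
    linarith
  have n3 : ‖v i‖ - ‖w i‖ ≤ ‖w i + v i‖ := by
    have := norm_sub_le (w i + v i) (w i)
    rw [add_sub_cancel_left] at this
    linarith
  by_cases hi0 : i ∈ F0
  · have hi : i ∈ F := h0 hi0
    have hi' : i ∈ F' := h1 hi
    simp only [hi0, hi, hi', if_true]
    linarith
  · by_cases hi : i ∈ F
    · have hi' : i ∈ F' := h1 hi
      simp only [hi0, hi, hi', if_true, if_false]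
      linarith
    · by_cases hi' : i ∈ F'
      · simp only [hi0, hi, hi', if_true, if_false]
        linarith
      · simp only [hi0, hi, hi', if_false]
        linarith

/-- Gliding hump: a sequence in an `ℓ¹`-sum with non-vanishing tails cannot satisfy an upper
`2`-estimate. -/
theorem hump (v : ℕ → lp (fun _ : ι => E) 1) (C : ℝ)
    (hC : ∀ J : Finset ℕ, ‖∑ k ∈ J, v k‖ ≤ C * Real.sqrt J.card)
    (hv : ∀ F : Finset ι, ∃ N : ℕ, ∀ k, N ≤ k → 1 ≤ tail F (v k)) : False := by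
  have hvC : ∀ k, ‖v k‖ ≤ C := by
    intro k
    have := hC {k}
    simpa using this
  let S : Set ℝ := {a | ∃ F : Finset ι, ∃ N : ℕ, ∀ k, N ≤ k → tail F (v k) ≤ a}
  have hSne : S.Nonempty := ⟨C, ∅, 0, fun k _ => by simpa [tail] using hvC k⟩
  have hS1 : ∀ a ∈ S, 1 ≤ a := by
    rintro a ⟨F, N, hN⟩
    obtain ⟨N', hN'⟩ := hv F
    exact (hN' (max N N') (le_max_right _ _)).trans (hN _ (le_max_left _ _))
  have hSb : BddBelow S := ⟨1, hS1⟩
  set δ := sInf S with hδ
  have hδ1 : 1 ≤ δ := le_csInf hSne hS1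
  obtain ⟨a, ⟨F0, N0, hN0⟩, ha⟩ := exists_lt_of_csInf_lt hSne (lt_add_of_pos_right δ
    (by norm_num : (0 : ℝ) < 1 / 10))
  have hfreq : ∀ (F : Finset ι) (N : ℕ), ∃ k, N ≤ k ∧ δ - 1 / 10 < tail F (v k) := by
    intro F N
    by_contra hcon
    push Not at hcon
    have : δ ≤ δ - 1 / 10 := csInf_le hSb ⟨F, N, hcon⟩
    linarith
  have claim : ∀ n : ℕ, ∃ (J : Finset ℕ) (F : Finset ι), J.card = n ∧ F0 ⊆ F ∧
      (n : ℝ) / 2 ≤ pot F0 F (∑ k ∈ J, v k) := by
    intro n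
    induction n with
    | zero =>
      refine ⟨∅, F0, rfl, subset_rfl, ?_⟩
      simp [pot]
    | succ n ih =>
      obtain ⟨J, F, hJ, hF, hJF⟩ := ih
      obtain ⟨k, hk, hk2⟩ := hfreq F (max N0 (J.sup id + 1))
      obtain ⟨F', hF', hF'2⟩ := exists_tail_lt F (v k) (ε := 1 / 10) (by norm_num)
      have hkJ : k ∉ J := by
        intro hkJ
        have h1 : k ≤ J.sup id := Finset.le_sup (f := id) hkJ
        have h2 : J.sup id + 1 ≤ k := (le_max_right _ _).trans hk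
        omega
      refine ⟨insert k J, F', ?_, hF.trans hF', ?_⟩
      · rw [Finset.card_insert_of_notMem hkJ, hJ]
      · rw [Finset.sum_insert hkJ, add_comm (v k)]
        have h1 := pot_step hF hF' (∑ k ∈ J, v k) (v k)
        have h2 := hN0 k ((le_max_left _ _).trans hk)
        push_cast
        linarith
  -- final contradiction
  obtain ⟨n, hn⟩ := exists_nat_gt (4 * C ^ 2 + 1)
  obtain ⟨J, F, hJ, -, hJF⟩ := claim n
  have h1 := (hJF.trans (pot_le_norm _ _ _)).trans (hC J)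
  rw [hJ] at h1
  have hn0 : (0 : ℝ) < n := by nlinarith [sq_nonneg C]
  have h2 : Real.sqrt n * Real.sqrt n = n := Real.mul_self_sqrt hn0.le
  have h3 : 0 < Real.sqrt n := Real.sqrt_pos.2 hn0
  have h4 : Real.sqrt n ≤ 2 * C := by
    have : Real.sqrt n * Real.sqrt n ≤ (2 * C) * Real.sqrt n := by
      rw [h2]; linarith
    exact le_of_mul_le_mul_right this h3
  have h5 : (n : ℝ) ≤ 4 * C ^ 2 := by
    rw [← h2]
    nlinarith
  linarith

end hump

end Pool.Agent.Lib.MP_92fb3f_an
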