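import Mathlib
import Pool.Agent.Lib.MP_92fb3f_an.Space

set_option autoImplicit false
set_option linter.unusedSectionVars false

open TopologicalSpace Filter Topology BoundedContinuousFunction
open scoped ENNReal

namespace Pool.Agent.Lib.MP_92fb3f_an

/-- index set of the `ℓ¹`-sum -/
def Idx (T R : Type) : Type := Finset T ⊕ R

instance (T R : Type) : TopologicalSpace (Idx T R) := ⊥
instance (T R : Type) : DiscreteTopology (Idx T R) := ⟨rfl⟩

/-- left injection -/
def il {T R : Type} (F : Finset T) : Idx T R := Sum.inl F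
/-- right injection -/
def ir {T R : Type} (r : R) : Idx T R := Sum.inr r

/-- The Hilbert space `ℓ²(T)`. -/
abbrev HH (T : Type) : Type := lp (fun _ : T => ℝ) 2

/-- The space `ℓ¹(I, ℓ²(T))`. -/
abbrev LL (T R : Type) : Type := lp (fun _ : Idx T R => HH T) 1

/-- The sets attached to the indices. -/
def MM {T R : Type} (M : R → Set T) : Idx T R → Set T := Sum.elim (fun F => (F : Set T)) M

/-- The quotient map `ℓ¹(I, ℓ²(T)) → ℓ²(T)`. -/
noncomputable def qq {T R : Type} (M : R → Set T) : LL T R →L[ℝ] HH T :=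
  sumL (fun i => proj (MM M i)) 1 (fun i => norm_proj_le _)

/-- Its kernel. -/
noncomputable abbrev KK {T R : Type} (M : R → Set T) : Submodule ℝ (LL T R) :=
  LinearMap.ker (qq M : LL T R →ₗ[ℝ] HH T)

/-- The Banach space of the counterexample. -/
abbrev XX {T R : Type} (M : R → Set T) : Type := KK M × HH T

variable {T R : Type} [DecidableEq T] (M : R → Set T)

open Classical in
theorem qq_single (i : Idx T R) (a : HH T) : qq M (lp.single 1 i a) = proj (MM M i) a :=
  sumL_single _ _ _ _ _

/-- pairing between `ℓ∞(I,H)` and `ℓ¹(I,H)` -/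
noncomputable def pairL (G : Idx T R →ᵇ HH T) : LL T R →L[ℝ] ℝ :=
  sumL (fun i => innerSL ℝ (G i)) ‖G‖ (fun i => by
    rw [innerSL_apply_norm]
    exact G.norm_coe_le_norm i)

theorem pairL_hasSum (G : Idx T R →ᵇ HH T) (x : LL T R) :
    HasSum (fun i => inner ℝ (G i) (x i)) (pairL G x) :=
  sumL_hasSum _ _ _ x

open Classical in
theorem pairL_single (G : Idx T R →ᵇ HH T) (i : Idx T R) (a : HH T) :
    pairL G (lp.single 1 i a) = inner ℝ (G i) a :=
  sumL_single _ _ _ _ _

/-- an ultrafilter refining `atTop` on finite sets -/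
noncomputable def uu (T : Type) : Ultrafilter (Finset T) := Ultrafilter.of atTop

theorem uu_le (T : Type) : (uu T : Filter (Finset T)) ≤ atTop := Ultrafilter.of_le _

theorem tendsto_rlim (G : Idx T R →ᵇ HH T) (h : HH T) :
    Tendsto (fun F : Finset T => inner ℝ (G (il F)) h) (uu T)
      (𝓝 (ulim (uu T) fun F : Finset T => inner ℝ (G (il F)) h)) := by
  refine tendsto_ulim (uu T) (C := ‖G‖ * ‖h‖) fun F => ?_
  refine (abs_real_inner_le_norm _ _).trans ?_
  gcongr
  exact G.norm_coe_le_norm _

theorem rlim_add_left (G G' : Idx T R →ᵇ HH T) (h : HH T) :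
    (ulim (uu T) fun F : Finset T => inner ℝ ((G + G') (il F)) h) =
      (ulim (uu T) fun F : Finset T => inner ℝ (G (il F)) h) +
      (ulim (uu T) fun F : Finset T => inner ℝ (G' (il F)) h) := by
  refine ulim_eq _ ?_
  refine ((tendsto_rlim G h).add (tendsto_rlim G' h)).congr fun F => ?_
  rw [← inner_add_left]
  rfl

theorem rlim_smul_left (G : Idx T R →ᵇ HH T) (c : ℝ) (h : HH T) :
    (ulim (uu T) fun F : Finset T => inner ℝ ((c • G) (il F)) h) =
      c * (ulim (uu T) fun F : Finset T => inner ℝ (G (il F)) h) := by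
  refine ulim_eq _ ?_
  refine ((tendsto_rlim G h).const_mul c).congr fun F => ?_
  rw [BoundedContinuousFunction.coe_smul, real_inner_smul_left]

/-- the limit functional -/
noncomputable def rlim (G : Idx T R →ᵇ HH T) : HH T →L[ℝ] ℝ :=
  LinearMap.mkContinuous
    { toFun := fun h => ulim (uu T) fun F : Finset T => inner ℝ (G (il F)) h
      map_add' := fun h h' => by
        refine ulim_eq _ ?_
        refine ((tendsto_rlim G h).add (tendsto_rlim G h')).congr fun F => ?_
        rw [← inner_add_right]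
      map_smul' := fun c h => by
        refine ulim_eq _ ?_
        refine ((tendsto_rlim G h).const_mul c).congr fun F => ?_
        rw [real_inner_smul_right] } ‖G‖ (fun h => by
      change ‖ulim (uu T) fun F : Finset T => inner ℝ (G (il F)) h‖ ≤ ‖G‖ * ‖h‖
      refine le_of_tendsto (tendsto_rlim G h).norm (Eventually.of_forall fun F => ?_)
      refine (abs_real_inner_le_norm _ _).trans ?_
      gcongr
      exact G.norm_coe_le_norm _)

theorem rlim_apply (G : Idx T R →ᵇ HH T) (h : HH T) :
    rlim G h = ulim (uu T) fun F : Finset T => inner ℝ (G (il F)) h := rfl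

theorem norm_rlim_le (G : Idx T R →ᵇ HH T) (h : HH T) : ‖rlim G h‖ ≤ ‖G‖ * ‖h‖ := by
  refine le_of_tendsto (tendsto_rlim G h).norm (Eventually.of_forall fun F => ?_)
  refine (abs_real_inner_le_norm _ _).trans ?_
  gcongr
  exact G.norm_coe_le_norm _

/-- The functional on `XX M` attached to `G`. -/
noncomputable def xi0 (G : Idx T R →ᵇ HH T) : XX M →L[ℝ] ℝ :=
  ((pairL G).comp (KK M).subtypeL).comp (ContinuousLinearMap.fst ℝ (KK M) (HH T)) +
    (rlim G).comp (ContinuousLinearMap.snd ℝ (KK M) (HH T))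

theorem xi0_apply (G : Idx T R →ᵇ HH T) (x : KK M) (h : HH T) :
    xi0 M G (x, h) = pairL G x + rlim G h := rfl

theorem pairL_add (G G' : Idx T R →ᵇ HH T) (x : LL T R) :
    pairL (G + G') x = pairL G x + pairL G' x := by
  refine (pairL_hasSum (G + G') x).unique ?_
  refine ((pairL_hasSum G x).add (pairL_hasSum G' x)).congr_fun ?_
  intro i
  rw [← inner_add_left]
  rfl

theorem pairL_smul (c : ℝ) (G : Idx T R →ᵇ HH T) (x : LL T R) :
    pairL (c • G) x = c * pairL G x := by
  refine (pairL_hasSum (c • G) x).unique ?_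
  refine ((pairL_hasSum G x).mul_left c).congr_fun ?_
  intro i
  rw [BoundedContinuousFunction.coe_smul, real_inner_smul_left]

theorem xi0_add (G G' : Idx T R →ᵇ HH T) : xi0 M (G + G') = xi0 M G + xi0 M G' := by
  refine ContinuousLinearMap.ext fun z => ?_
  have e : (xi0 M G + xi0 M G') z = xi0 M G (z.1, z.2) + xi0 M G' (z.1, z.2) := rfl
  have e' : xi0 M (G + G') z = xi0 M (G + G') (z.1, z.2) := rfl
  rw [e, e', xi0_apply, xi0_apply, xi0_apply, pairL_add, rlim_apply, rlim_apply, rlim_apply,
    rlim_add_left]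
  ring

theorem xi0_smul (c : ℝ) (G : Idx T R →ᵇ HH T) : xi0 M (c • G) = c • xi0 M G := by
  refine ContinuousLinearMap.ext fun z => ?_
  have e : (c • xi0 M G) z = c * xi0 M G (z.1, z.2) := rfl
  have e' : xi0 M (c • G) z = xi0 M (c • G) (z.1, z.2) := rfl
  rw [e, e', xi0_apply, xi0_apply, pairL_smul, rlim_apply, rlim_apply,
    rlim_smul_left]
  ring

theorem norm_xi0_le (G : Idx T R →ᵇ HH T) : ‖xi0 M G‖ ≤ 2 * ‖G‖ := by
  refine ContinuousLinearMap.opNorm_le_bound _ (by positivity) fun z => ?_
  have e' : xi0 M G z = xi0 M G (z.1, z.2) := rfl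
  rw [e', xi0_apply]
  have h1 : ‖pairL G z.1‖ ≤ ‖G‖ * ‖z‖ :=
    (norm_sumL_apply_le _ _ _ _).trans (by
      gcongr
      exact norm_fst_le z)
  have h2 : ‖rlim G z.2‖ ≤ ‖G‖ * ‖z‖ :=
    (norm_rlim_le G z.2).trans (by
      gcongr
      exact norm_snd_le z)
  calc ‖pairL G z.1 + rlim G z.2‖ ≤ ‖pairL G z.1‖ + ‖rlim G z.2‖ := norm_add_le _ _
    _ ≤ ‖G‖ * ‖z‖ + ‖G‖ * ‖z‖ := add_le_add h1 h2
    _ = 2 * ‖G‖ * ‖z‖ := by ring

/-- The map `ℓ∞(I,H) → XX M *`. -/
noncomputable def xi : (Idx T R →ᵇ HH T) →L[ℝ] (XX M →L[ℝ] ℝ) :=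
  LinearMap.mkContinuous
    { toFun := xi0 M
      map_add' := xi0_add M
      map_smul' := xi0_smul M } 2 (norm_xi0_le M)

theorem xi_apply (G : Idx T R →ᵇ HH T) (x : KK M) (h : HH T) :
    xi M G (x, h) = pairL G x + rlim G h := rfl

theorem xi_injective : Function.Injective (xi M) := by
  classical
  rw [injective_iff_map_eq_zero]
  intro G hG
  have hr : ∀ h : HH T, rlim G h = 0 := by
    intro h
    have := congrArg (fun f : XX M →L[ℝ] ℝ => f (0, h)) hG
    simp only [xi_apply] at this
    simpa using this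
  have hp : ∀ x : KK M, pairL G x = 0 := by
    intro x
    have := congrArg (fun f : XX M →L[ℝ] ℝ => f (x, 0)) hG
    simp only [xi_apply] at this
    simpa using this
  have key : ∀ (i : Idx T R) (t : T), inner ℝ (G i) (lp.single 2 t (1 : ℝ) : HH T) = 0 := by
    intro i t
    set e : HH T := lp.single 2 t (1 : ℝ) with he
    have hF : ∀ F : Finset T, t ∈ F → inner ℝ (G i) e = inner ℝ (G (il F)) (proj (MM M i) e) := by
      intro F hF
      have hmem : (lp.single 1 i e - lp.single 1 (il F) (proj (MM M i) e) : LL T R) ∈ KK M := by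
        rw [LinearMap.mem_ker]
        change qq M _ = 0
        rw [map_sub, qq_single, qq_single]
        have hMF : MM M (il F) = (F : Set T) := rfl
        rw [hMF]
        by_cases ht : t ∈ MM M i
        · rw [he, proj_single_mem ht, proj_single_mem (A := (F : Set T)) (by exact_mod_cast hF),
            sub_self]
        · rw [he, proj_single_not_mem ht, map_zero, sub_zero]
      have h1 := hp ⟨_, hmem⟩
      change pairL G (lp.single 1 i e - lp.single 1 (il F) (proj (MM M i) e)) = 0 at h1
      rw [map_sub, pairL_single, pairL_single, sub_eq_zero] at h1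
      exact h1
    have h2 := tendsto_rlim G (proj (MM M i) e)
    rw [← rlim_apply, hr] at h2
    have h3 : Tendsto (fun F : Finset T => inner ℝ (G (il F)) (proj (MM M i) e)) (uu T)
        (𝓝 (inner ℝ (G i) e)) := by
      refine (tendsto_const_nhds (x := inner ℝ (G i) e)).congr' ?_
      have h4 : ∀ᶠ F : Finset T in (uu T : Filter (Finset T)), t ∈ F := by
        refine (uu_le T) ?_
        exact (eventually_ge_atTop {t}).mono fun F hF => hF (Finset.mem_singleton_self t)
      exact h4.mono fun F hF' => hF F hF'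
    exact tendsto_nhds_unique h3 h2
  ext i : 1
  ext t
  have := key i t
  rw [lp.inner_single_right] at this
  simpa using this

theorem xi_surjective : Function.Surjective (xi M) := by
  classical
  intro Φ
  let a : KK M →L[ℝ] ℝ := Φ.comp (ContinuousLinearMap.inl ℝ (KK M) (HH T))
  let b : HH T →L[ℝ] ℝ := Φ.comp (ContinuousLinearMap.inr ℝ (KK M) (HH T))
  obtain ⟨f0, hf0, -⟩ := exists_extension_norm_eq (𝕜 := ℝ) (E := LL T R) (KK M) a
  -- representation of `f0`
  let g0 : Idx T R → HH T := fun i =>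
    (InnerProductSpace.toDual ℝ (HH T)).symm
      (f0.comp (lp.singleContinuousLinearMap ℝ (fun _ : Idx T R => HH T) 1 i))
  have hg0n : ∀ i, ‖g0 i‖ ≤ ‖f0‖ := by
    intro i
    change ‖(InnerProductSpace.toDual ℝ (HH T)).symm _‖ ≤ ‖f0‖
    rw [LinearIsometryEquiv.norm_map]
    refine ContinuousLinearMap.opNorm_le_bound _ (norm_nonneg _) fun h => ?_
    change ‖f0 (lp.single 1 i h)‖ ≤ ‖f0‖ * ‖h‖
    refine (f0.le_opNorm _).trans ?_
    rw [lp.norm_single (by simp)]
  let G0 : Idx T R →ᵇ HH T :=
    BoundedContinuousFunction.ofNormedAddCommGroupDiscrete g0 ‖f0‖ hg0n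
  have hG0 : ∀ x : LL T R, pairL G0 x = f0 x := by
    have : pairL G0 = f0 := by
      refine lp.ext_continuousLinearMap (by simp) fun i => ?_
      refine ContinuousLinearMap.ext fun h => ?_
      change pairL G0 (lp.single 1 i h) = f0 (lp.single 1 i h)
      rw [pairL_single]
      change inner ℝ (g0 i) h = _
      change inner ℝ ((InnerProductSpace.toDual ℝ (HH T)).symm _) h = _
      rw [InnerProductSpace.toDual_symm_apply]
      rfl
    intro x
    rw [this]
  let c : HH T := (InnerProductSpace.toDual ℝ (HH T)).symm (b - rlim G0)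
  have hc : ∀ h, inner ℝ c h = b h - rlim G0 h := by
    intro h
    change inner ℝ ((InnerProductSpace.toDual ℝ (HH T)).symm _) h = _
    rw [InnerProductSpace.toDual_symm_apply]
    rfl
  let G1 : Idx T R →ᵇ HH T :=
    BoundedContinuousFunction.ofNormedAddCommGroupDiscrete (fun i => proj (MM M i) c) ‖c‖
      (fun i => norm_proj_apply_le _ _)
  have hG1 : ∀ x : LL T R, pairL G1 x = inner ℝ c (qq M x) := by
    intro x
    refine (pairL_hasSum G1 x).unique ?_
    have h1 : HasSum (fun i => proj (MM M i) (x i)) (qq M x) := sumL_hasSum _ _ _ x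
    have h2 := h1.mapL (innerSL ℝ c)
    refine h2.congr_fun fun i => ?_
    exact inner_proj _ _ _
  have hG1r : ∀ h, rlim G1 h = inner ℝ c h := by
    intro h
    rw [rlim_apply]
    refine ulim_eq _ ?_
    have h1 := (proj_tendsto c).mono_left (uu_le T)
    exact h1.inner tendsto_const_nhds
  refine ⟨G0 + G1, ?_⟩
  refine ContinuousLinearMap.ext fun z => ?_
  have e' : xi M (G0 + G1) z = xi M (G0 + G1) (z.1, z.2) := rfl
  rw [e', xi_apply, pairL_add, rlim_apply, rlim_add_left, ← rlim_apply, ← rlim_apply, hG1r, hc,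
    hG0, hG1]
  have hz : qq M (z.1 : LL T R) = 0 := z.1.2
  rw [hz, inner_zero_right, hf0]
  have hΦ : Φ z = a z.1 + b z.2 := by
    change Φ z = Φ (z.1, 0) + Φ (0, z.2)
    rw [← map_add]
    simp
  rw [hΦ]
  ring

end Pool.Agent.Lib.MP_92fb3f_an
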