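import Mathlib
import Pool.Agent.Lib.MP_92fb3f_an.Basic

set_option autoImplicit false

open TopologicalSpace Filter Topology

namespace Pool.Agent.Lib.MP_92fb3f_an

section

variable {K V : Type*} [NormedAddCommGroup K] [InnerProductSpace ℝ K] [CompleteSpace K]
  [NormedAddCommGroup V] [NormedSpace ℝ V]

/-- A vector that detects the norm of `T h`. -/
theorem exists_detect (T : K →L[ℝ] V) (h : K) :
    ∃ a : K, ∀ h' : K, inner ℝ a h' = 0 → ‖T h‖ ≤ ‖T (h + h')‖ := by
  obtain ⟨g, hg1, hg2⟩ := exists_dual_vector'' ℝ (T h)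
  refine ⟨(InnerProductSpace.toDual ℝ K).symm (g.comp T), fun h' hh' => ?_⟩
  rw [InnerProductSpace.toDual_symm_apply] at hh'
  have h1 : g (T (h + h')) = ‖T h‖ := by
    rw [map_add, map_add, hg2]
    have : g (T h') = 0 := hh'
    rw [this, add_zero]
    rfl
  calc ‖T h‖ = g (T (h + h')) := h1.symm
    _ ≤ ‖g (T (h + h'))‖ := Real.le_norm_self _
    _ ≤ ‖g‖ * ‖T (h + h')‖ := g.le_opNorm _
    _ ≤ 1 * ‖T (h + h')‖ := by gcongr
    _ = ‖T (h + h')‖ := one_mul _

/-- One closing-off step. -/
theorem exists_step (a : K → K) (W : {W : Submodule ℝ K // IsSeparable (W : Set K)}) :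
    ∃ W' : {W : Submodule ℝ K // IsSeparable (W : Set K)}, W.1 ≤ W'.1 ∧
      ∃ D : Set K, D ⊆ W.1 ∧ (W.1 : Set K) ⊆ closure D ∧ ∀ d ∈ D, a d ∈ W'.1 := by
  obtain ⟨D, hD1, hD2, hD3⟩ := W.2.exists_countable_dense_subset
  refine ⟨⟨Submodule.span ℝ ((W.1 : Set K) ∪ a '' D), ?_⟩, ?_, D, hD1, hD3, ?_⟩
  · exact (W.2.union (hD2.image a).isSeparable).span
  · intro x hx
    exact Submodule.subset_span (Or.inl hx)
  · intro d hd
    exact Submodule.subset_span (Or.inr ⟨d, hd, rfl⟩)

/-- Closing off: a separable closed subspace stable under `a` on a dense subset. -/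
theorem exists_closed_off (a : K → K) (W0 : Submodule ℝ K) (hW0 : IsSeparable (W0 : Set K)) :
    ∃ W : Submodule ℝ K, W0 ≤ W ∧ IsClosed (W : Set K) ∧ IsSeparable (W : Set K) ∧
      ∃ D : Set K, (W : Set K) ⊆ closure D ∧ ∀ d ∈ D, a d ∈ W := by
  choose next h1 D h2 h3 h4 using exists_step a
  let s : ℕ → {W : Submodule ℝ K // IsSeparable (W : Set K)} := fun n =>
    Nat.rec ⟨W0, hW0⟩ (fun _ w => next w) n
  have hs : ∀ n, s (n + 1) = next (s n) := fun n => rfl
  have hmono : Monotone fun n => (s n).1 := by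
    refine monotone_nat_of_le_succ fun n => ?_
    rw [hs]
    exact h1 _
  have hdir : Directed (· ≤ ·) fun n => (s n).1 := hmono.directed_le
  have hunion : ((⨆ n, (s n).1 : Submodule ℝ K) : Set K) = ⋃ n, ((s n).1 : Set K) :=
    Submodule.coe_iSup_of_directed _ hdir
  refine ⟨(⨆ n, (s n).1).topologicalClosure, ?_, Submodule.isClosed_topologicalClosure _, ?_,
    ⋃ n, D (s n), ?_, ?_⟩
  · calc W0 = (s 0).1 := rfl
      _ ≤ ⨆ n, (s n).1 := le_iSup (fun n => (s n).1) 0
      _ ≤ _ := Submodule.le_topologicalClosure _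
  · rw [Submodule.topologicalClosure_coe, hunion]
    exact (IsSeparable.iUnion fun n => (s n).2).closure
  · rw [Submodule.topologicalClosure_coe, hunion]
    refine closure_minimal ?_ isClosed_closure
    refine Set.iUnion_subset fun n => ?_
    refine (h3 (s n)).trans (closure_mono ?_)
    exact Set.subset_iUnion (fun n => D (s n)) n
  · intro d hd
    obtain ⟨n, hn⟩ := Set.mem_iUnion.1 hd
    have : a d ∈ (s (n + 1)).1 := by
      rw [hs]
      exact h4 _ _ hn
    exact Submodule.le_topologicalClosure _ (le_iSup (fun n => (s n).1) (n + 1) this)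

/-- A Banach space which is the closure of the range of an operator from a Hilbert space has the
separable complementation property. -/
theorem SCP_of_hilbert [CompleteSpace V] (T : K →L[ℝ] V) (hT : DenseRange T) : SCP V := by
  intro Y hY
  choose a ha using exists_detect T
  -- a separable subspace whose image is dense near Y
  obtain ⟨C, hCY, hCc, hYC⟩ := hY.exists_countable_dense_subset
  have hap : ∀ y : V, ∀ n : ℕ, ∃ k : K, dist y (T k) < 1 / ((n : ℝ) + 1) := by
    intro y n
    have := hT y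
    rw [Metric.mem_closure_iff] at this
    obtain ⟨b, ⟨k, rfl⟩, hk⟩ := this (1 / ((n : ℝ) + 1)) (by positivity)
    exact ⟨k, hk⟩
  choose b hb using hap
  let S : Set K := ⋃ n : ℕ, (fun y => b y n) '' C
  have hS : S.Countable := Set.countable_iUnion fun n => hCc.image _
  have hCS : C ⊆ closure (T '' S) := by
    intro y hy
    rw [Metric.mem_closure_iff]
    intro ε hε
    obtain ⟨n, hn⟩ := exists_nat_one_div_lt hε
    exact ⟨T (b y n), ⟨b y n, Set.mem_iUnion.2 ⟨n, y, hy, rfl⟩, rfl⟩, (hb y n).trans hn⟩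
  obtain ⟨W, hW0, hWc, hWs, D, hD1, hD2⟩ :=
    exists_closed_off a (Submodule.span ℝ S) hS.isSeparable.span
  haveI : CompleteSpace W := hWc.completeSpace_coe
  -- the key inequality
  have key0 : ∀ h' : K, (∀ w ∈ W, inner ℝ w h' = 0) → ∀ h ∈ W, ‖T h‖ ≤ ‖T (h + h')‖ := by
    intro h' hh' h hh
    have hcl : IsClosed {h : K | ‖T h‖ ≤ ‖T (h + h')‖} :=
      isClosed_le (by fun_prop) (by fun_prop)
    have hsub : D ⊆ {h : K | ‖T h‖ ≤ ‖T (h + h')‖} := by
      intro d hd
      exact ha d h' (hh' _ (hD2 d hd))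
    exact closure_minimal hsub hcl (hD1 hh)
  have key : ∀ x : K, ‖T (W.starProjection x)‖ ≤ 1 * ‖T x‖ := by
    intro x
    rw [one_mul]
    have h1 := key0 (x - W.starProjection x) (by
      intro w hw
      have := W.starProjection_inner_eq_zero x w hw
      rw [real_inner_comm]
      exact this) (W.starProjection x) (W.starProjection_apply_mem x)
    rwa [add_sub_cancel] at h1
  let P : V →L[ℝ] V := LinearMap.extendOfNorm
    (((T.comp W.starProjection : K →L[ℝ] V)) : K →ₗ[ℝ] V) (T : K →ₗ[ℝ] V)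
  have hP : ∀ x : K, P (T x) = T (W.starProjection x) := fun x =>
    LinearMap.extendOfNorm_eq (f := (((T.comp W.starProjection : K →L[ℝ] V)) : K →ₗ[ℝ] V))
      (e := (T : K →ₗ[ℝ] V)) hT ⟨1, key⟩ x
  let Z : Submodule ℝ V := (W.map (T : K →ₗ[ℝ] V)).topologicalClosure
  have hZc : IsClosed (Z : Set V) := Submodule.isClosed_topologicalClosure _
  refine ⟨Z, ?_, hZc, ?_, P, ?_, ?_⟩
  · intro y hy
    have h1 : T '' S ⊆ (Z : Set V) := by
      rintro _ ⟨k, hk, rfl⟩
      exact Submodule.le_topologicalClosure _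
        (Submodule.mem_map_of_mem (hW0 (Submodule.subset_span hk)))
    have h2 : C ⊆ (Z : Set V) := hCS.trans (closure_minimal h1 hZc)
    exact closure_minimal h2 hZc (hYC hy)
  · change IsSeparable (closure ((W.map (T : K →ₗ[ℝ] V) : Submodule ℝ V) : Set V))
    rw [Submodule.map_coe]
    exact (hWs.image T.continuous).closure
  · intro x
    have : ∀ y, P y ∈ (Z : Set V) := by
      refine isClosed_property hT (hZc.preimage P.continuous) ?_
      intro k
      change P (T k) ∈ (Z : Set V)
      rw [hP]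
      exact Submodule.le_topologicalClosure _
        (Submodule.mem_map_of_mem (W.starProjection_apply_mem k))
    exact this x
  · intro z hz
    have hcl : IsClosed {z : V | P z = z} := isClosed_eq P.continuous continuous_id
    have hsub : ((W.map (T : K →ₗ[ℝ] V) : Submodule ℝ V) : Set V) ⊆ {z : V | P z = z} := by
      rintro _ ⟨w, hw, rfl⟩
      change P (T w) = T w
      rw [hP, Submodule.starProjection_eq_self_iff.2 hw]
    exact closure_minimal hsub hcl hz

end

end Pool.Agent.Lib.MP_92fb3f_an
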