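import Mathlib
import Pool.Agent.Lib.MP_92fb3f_an.Decomp
import Pool.Agent.Lib.MP_92fb3f_an.HilbertGen

set_option autoImplicit false
set_option linter.unusedSectionVars false

open TopologicalSpace Filter Topology BoundedContinuousFunction

namespace Pool.Agent.Lib.MP_92fb3f_an

universe u

/-- The Hilbert space attached to a positive semidefinite symmetric form. -/
theorem exists_hilbert {M : Type u} [AddCommGroup M] [Module ℝ M] (B : M → M → ℝ)
    (symm : ∀ x y, B y x = B x y) (nonneg : ∀ x, 0 ≤ B x x)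
    (add_left : ∀ x y z, B (x + y) z = B x z + B y z)
    (smul_left : ∀ x y (c : ℝ), B (c • x) y = c * B x y) :
    ∃ (K : Type u) (_ : NormedAddCommGroup K) (_ : InnerProductSpace ℝ K) (_ : CompleteSpace K)
      (k : M →ₗ[ℝ] K), DenseRange k ∧ ∀ x y, inner ℝ (k x) (k y) = B x y := by
  let c : PreInnerProductSpace.Core ℝ M :=
    { inner := B
      conj_inner_symm := fun x y => by simpa using symm x y
      re_inner_nonneg := fun x => by simpa using nonneg x
      add_left := add_left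
      smul_left := fun x y r => by simpa using smul_left x y r }
  letI : SeminormedAddCommGroup M := InnerProductSpace.Core.toSeminormedAddCommGroup (𝕜 := ℝ)
  letI : InnerProductSpace ℝ M := InnerProductSpace.ofCore c
  refine ⟨UniformSpace.Completion M, inferInstance, inferInstance, inferInstance,
    (UniformSpace.Completion.toComplₗᵢ : M →ₗᵢ[ℝ] UniformSpace.Completion M).toLinearMap,
    UniformSpace.Completion.denseRange_coe, ?_⟩
  intro x y
  exact UniformSpace.Completion.inner_coe x y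

/-- Passing from complemented subspaces with the SCP to the whole space. -/
theorem SCP_of_local {N : Type*} [NormedAddCommGroup N] [NormedSpace ℝ N]
    (h : ∀ Y : Submodule ℝ N, IsSeparable (Y : Set N) → ∃ V : Submodule ℝ N, Y ≤ V ∧
      IsClosed (V : Set N) ∧ SCP V ∧ ∃ P : N →L[ℝ] V, ∀ x : V, P x = x) : SCP N := by
  intro Y hY
  obtain ⟨V, hYV, hVc, hV, P, hP⟩ := h Y hY
  obtain ⟨Z, hZ1, hZ2, hZ3, Q, hQ1, hQ2⟩ := hV (Y.comap V.subtype)
    (Topology.IsInducing.subtypeVal.isSeparable_preimage hY)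
  refine ⟨Z.map V.subtype, ?_, ?_, ?_, (V.subtypeL.comp Q).comp P, ?_, ?_⟩
  · intro y hy
    exact ⟨⟨y, hYV hy⟩, hZ1 hy, rfl⟩
  · rw [Submodule.map_coe]
    exact hVc.isClosedEmbedding_subtypeVal.isClosedMap _ hZ2
  · rw [Submodule.map_coe]
    exact hZ3.image continuous_subtype_val
  · intro x
    exact ⟨Q (P x), hQ1 _, rfl⟩
  · rintro z ⟨w, hw, rfl⟩
    change ((Q (P (w : N)) : V) : N) = w
    rw [hP, hQ2 w hw]

theorem exists_dense_seq_submodule {N : Type*} [NormedAddCommGroup N] [NormedSpace ℝ N]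
    (Y : Submodule ℝ N) (hY : IsSeparable (Y : Set N)) :
    ∃ y : ℕ → N, (Y : Set N) ⊆ closure (Set.range y) := by
  obtain ⟨D, hD1, hD2, hD3⟩ := hY.exists_countable_dense_subset
  have hne : D.Nonempty := by
    by_contra hcon
    rw [Set.not_nonempty_iff_eq_empty] at hcon
    rw [hcon, closure_empty] at hD3
    exact hD3 Y.zero_mem
  obtain ⟨y, rfl⟩ := hD2.exists_eq_range hne
  exact ⟨y, hD3⟩

theorem exists_weighted_sum {E : Type*} [NormedAddCommGroup E] [NormedSpace ℝ E] [CompleteSpace E]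
    (m : ℕ → E) : ∃ c : ℕ → ℝ, (∀ n, 0 < c n) ∧ ∃ μ : E, HasSum (fun n => c n • m n) μ := by
  let c : ℕ → ℝ := fun n => (1 / 2) ^ n * (1 + ‖m n‖)⁻¹
  have hc : ∀ n, 0 < c n := fun n => by positivity
  have hsum : Summable fun n => c n • m n := by
    refine Summable.of_norm_bounded (g := fun n : ℕ => ((1 : ℝ) / 2) ^ n) summable_geometric_two ?_
    intro n
    rw [norm_smul, Real.norm_of_nonneg (hc n).le]
    change (1 / 2) ^ n * (1 + ‖m n‖)⁻¹ * ‖m n‖ ≤ (1 / 2) ^ n
    have : (1 + ‖m n‖)⁻¹ * ‖m n‖ ≤ 1 := by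
      rw [inv_mul_le_iff₀ (by positivity)]
      linarith
    calc (1 / 2) ^ n * (1 + ‖m n‖)⁻¹ * ‖m n‖ = (1 / 2) ^ n * ((1 + ‖m n‖)⁻¹ * ‖m n‖) := by ring
      _ ≤ (1 / 2) ^ n * 1 := by gcongr
      _ = (1 / 2) ^ n := mul_one _
  exact ⟨c, hc, _, hsum.hasSum⟩

theorem exists_weighted_sum' {E : Type*} [NormedAddCommGroup E] [NormedSpace ℝ E]
    (m : ℕ → E →L[ℝ] ℝ) : ∃ c : ℕ → ℝ, (∀ n, 0 < c n) ∧ ∃ μ : E →L[ℝ] ℝ,
      ∀ U, HasSum (fun n => c n * m n U) (μ U) := by
  obtain ⟨c, hc, μ, hμ⟩ := exists_weighted_sum m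
  refine ⟨c, hc, μ, fun U => ?_⟩
  exact hμ.mapL (ContinuousLinearMap.apply ℝ ℝ U)

/-- Abstract criterion for the SCP. -/
theorem SCP_of_criterion {N : Type*} [NormedAddCommGroup N] [NormedSpace ℝ N] [CompleteSpace N]
    (h : ∀ Y : Submodule ℝ N, IsSeparable (Y : Set N) → ∃ p q : Submodule ℝ N,
      Y ≤ p.topologicalClosure ∧ IsCompl p.topologicalClosure q ∧
      (∀ a ∈ p.topologicalClosure, ∀ b ∈ q, ‖a‖ ≤ ‖a + b‖) ∧
      ∃ (K : Type u) (_ : NormedAddCommGroup K) (_ : InnerProductSpace ℝ K) (_ : CompleteSpace K)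
        (T : K →L[ℝ] N), (∀ x, T x ∈ p.topologicalClosure) ∧ ∀ y ∈ p, ∃ x, T x = y) : SCP N := by
  refine SCP_of_local fun Y hY => ?_
  obtain ⟨p, q, hYp, hc, hn, K, _, _, _, T, hT1, hT2⟩ := h Y hY
  have hcl : IsClosed (p.topologicalClosure : Set N) := Submodule.isClosed_topologicalClosure _
  refine ⟨p.topologicalClosure, hYp, hcl, ?_, exists_proj_of_compl _ q hc hn⟩
  haveI : CompleteSpace p.topologicalClosure := hcl.completeSpace_coe
  let T' : K →L[ℝ] p.topologicalClosure := T.codRestrict _ hT1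
  refine SCP_of_hilbert T' ?_
  intro x
  rw [Metric.mem_closure_iff]
  intro ε hε
  have hx : (x : N) ∈ closure (p : Set N) := x.2
  rw [Metric.mem_closure_iff] at hx
  obtain ⟨ψ, hψ, hψ2⟩ := hx ε hε
  obtain ⟨h, rfl⟩ := hT2 ψ hψ
  exact ⟨T' h, ⟨h, rfl⟩, hψ2⟩

section

variable {I H : Type u} [TopologicalSpace I]
  [NormedAddCommGroup H] [InnerProductSpace ℝ H]

/-- Pointwise inner product. -/
noncomputable def innerB (F G : I →ᵇ H) : I →ᵇ ℝ :=
  BoundedContinuousFunction.ofNormedAddCommGroup (fun i => inner ℝ (F i) (G i))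
    (F.continuous.inner G.continuous) (‖F‖ * ‖G‖) (fun i => by
      refine (norm_inner_le_norm _ _).trans ?_
      gcongr
      · exact F.norm_coe_le_norm i
      · exact G.norm_coe_le_norm i)

@[simp] theorem innerB_apply (F G : I →ᵇ H) (i : I) : innerB F G i = inner ℝ (F i) (G i) := rfl

theorem abs_pos_le {μ : (I →ᵇ ℝ) →L[ℝ] ℝ} (hμ : Pos μ) {U V : I →ᵇ ℝ} (h : ∀ i, |U i| ≤ V i) :
    |μ U| ≤ μ V := by
  rw [abs_le]
  constructor
  · have := hμ.mono (U := -V) (V := U) (fun i => by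
      have := (abs_le.1 (h i)).1
      exact this)
    rw [map_neg] at this
    exact this
  · exact hμ.mono (fun i => (abs_le.1 (h i)).2)

theorem cs_pos {μ : (I →ᵇ ℝ) →L[ℝ] ℝ} (hμ : Pos μ) (U : I →ᵇ ℝ) :
    (μ U) ^ 2 ≤ μ 1 * μ (U * U) := by
  have h : ∀ s : ℝ, 0 ≤ μ 1 * (s * s) + (-2 * μ U) * s + μ (U * U) := by
    intro s
    have h1 := hμ ((U - s • 1) * (U - s • 1)) (fun i => by
      change (0 : ℝ) ≤ (U i - s • 1) * (U i - s • 1)
      exact mul_self_nonneg _)
    have e : (U - s • (1 : I →ᵇ ℝ)) * (U - s • 1) = U * U - (2 * s) • U + (s * s) • 1 := by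
      ext i
      simp only [BoundedContinuousFunction.coe_mul, BoundedContinuousFunction.coe_sub,
        BoundedContinuousFunction.coe_add, BoundedContinuousFunction.coe_smul, Pi.mul_apply,
        Pi.sub_apply, Pi.add_apply, BoundedContinuousFunction.coe_one, Pi.one_apply, smul_eq_mul]
      ring
    rw [e, map_add, map_sub, map_smul, map_smul, smul_eq_mul, smul_eq_mul] at h1
    linarith
  have h2 := discrim_le_zero h
  rw [discrim] at h2
  nlinarith

/-- The key point: the closure of the dominated functionals is Hilbert generated. -/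
theorem hilbert_dom [CompleteSpace H] {μ : (I →ᵇ ℝ) →L[ℝ] ℝ} (hμ : Pos μ) :
    ∃ (K : Type u) (_ : NormedAddCommGroup K) (_ : InnerProductSpace ℝ K) (_ : CompleteSpace K)
      (T : K →L[ℝ] ((I →ᵇ H) →L[ℝ] ℝ)), (∀ x, T x ∈ (Dom (H := H) μ).topologicalClosure) ∧
        ∀ y ∈ Dom (H := H) μ, ∃ x, T x = y := by
  obtain ⟨K, _, _, _, k, hkd, hk⟩ := exists_hilbert (M := I →ᵇ H) (fun F G => μ (innerB F G))
    (fun F G => by
      congr 1
      ext i
      simp [real_inner_comm])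
    (fun F => hμ _ (fun i => by
      change (0 : ℝ) ≤ inner ℝ (F i) (F i)
      exact real_inner_self_nonneg))
    (fun F G E => by
      change μ _ = μ _ + μ _
      rw [← map_add]
      congr 1
      ext i
      simp [inner_add_left])
    (fun F G c => by
      change μ _ = c * μ _
      rw [← smul_eq_mul, ← map_smul]
      congr 1
      ext i
      simp [inner_smul_left])
  have hknorm : ∀ F : I →ᵇ H, ‖k F‖ ^ 2 = μ (innerB F F) := by
    intro F
    rw [← hk F F, real_inner_self_eq_norm_sq]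
  have hk1 : ∀ F : I →ᵇ H, ‖k F‖ ≤ Real.sqrt ‖μ‖ * ‖F‖ := by
    intro F
    have h1 : ‖k F‖ ^ 2 ≤ ‖μ‖ * ‖F‖ ^ 2 := by
      rw [hknorm]
      calc μ (innerB F F) ≤ ‖μ (innerB F F)‖ := Real.le_norm_self _
        _ ≤ ‖μ‖ * ‖innerB F F‖ := μ.le_opNorm _
        _ ≤ ‖μ‖ * (‖F‖ * ‖F‖) := by
            gcongr
            exact BoundedContinuousFunction.norm_ofNormedAddCommGroup_le _ (by positivity) _
        _ = ‖μ‖ * ‖F‖ ^ 2 := by ring
    have h2 : (Real.sqrt ‖μ‖ * ‖F‖) ^ 2 = ‖μ‖ * ‖F‖ ^ 2 := by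
      rw [mul_pow, Real.sq_sqrt (norm_nonneg μ)]
    rw [← h2] at h1
    exact le_of_sq_le_sq h1 (by positivity)
  let kc : (I →ᵇ H) →L[ℝ] K := k.mkContinuous _ hk1
  have hkc : ∀ F, kc F = k F := fun F => rfl
  let T : K →L[ℝ] ((I →ᵇ H) →L[ℝ] ℝ) :=
    ((ContinuousLinearMap.compL ℝ (I →ᵇ H) K ℝ).flip kc).comp (innerSL ℝ)
  have hT : ∀ h F, T h F = inner ℝ h (k F) := fun h F => rfl
  -- the range of `T` is inside the closure
  have hTk : ∀ G : I →ᵇ H, T (k G) ∈ Dom (H := H) μ := by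
    intro G
    refine ⟨‖G‖, norm_nonneg _, fun F => ?_⟩
    rw [hT, hk]
    have h1 : |μ (innerB G F)| ≤ μ (‖G‖ • F.normComp) := by
      refine abs_pos_le hμ fun i => ?_
      change |inner ℝ (G i) (F i)| ≤ ‖G‖ • ‖F i‖
      refine (abs_real_inner_le_norm _ _).trans ?_
      rw [smul_eq_mul]
      gcongr
      exact G.norm_coe_le_norm i
    rw [map_smul, smul_eq_mul] at h1
    exact h1
  have hTmem : ∀ h : K, T h ∈ (Dom (H := H) μ).topologicalClosure := by
    have hcl : IsClosed {h : K | T h ∈ ((Dom (H := H) μ).topologicalClosure : Set _)} :=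
      (Submodule.isClosed_topologicalClosure _).preimage T.continuous
    intro h
    exact isClosed_property hkd hcl (fun G => Submodule.le_topologicalClosure _ (hTk G)) h
  -- dominated functionals are in the range
  have hDom : ∀ ψ ∈ Dom (H := H) μ, ∃ h : K, T h = ψ := by
    rintro ψ ⟨C, hC0, hC⟩
    have hbound : ∀ F : I →ᵇ H, ‖ψ F‖ ≤ (C * Real.sqrt (μ 1)) * ‖k F‖ := by
      intro F
      have h1 : (μ F.normComp) ^ 2 ≤ μ 1 * ‖k F‖ ^ 2 := by
        have h2 := cs_pos hμ F.normComp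
        have e : F.normComp * F.normComp = innerB F F := by
          ext i
          simp [pow_two]
        rw [e, ← hknorm] at h2
        exact h2
      have hμ1 : 0 ≤ μ 1 := hμ 1 (fun i => zero_le_one)
      have h3 : (Real.sqrt (μ 1) * ‖k F‖) ^ 2 = μ 1 * ‖k F‖ ^ 2 := by
        rw [mul_pow, Real.sq_sqrt hμ1]
      rw [← h3] at h1
      have h4 : μ F.normComp ≤ Real.sqrt (μ 1) * ‖k F‖ := le_of_sq_le_sq h1 (by positivity)
      calc ‖ψ F‖ ≤ C * μ F.normComp := hC F
        _ ≤ C * (Real.sqrt (μ 1) * ‖k F‖) := by gcongr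
        _ = (C * Real.sqrt (μ 1)) * ‖k F‖ := by ring
    let g : K →L[ℝ] ℝ := LinearMap.extendOfNorm (ψ : (I →ᵇ H) →ₗ[ℝ] ℝ) k
    have hg : ∀ F, g (k F) = ψ F := fun F =>
      LinearMap.extendOfNorm_eq (f := (ψ : (I →ᵇ H) →ₗ[ℝ] ℝ)) (e := k) hkd ⟨_, hbound⟩ F
    refine ⟨(InnerProductSpace.toDual ℝ K).symm g, ?_⟩
    ext F
    rw [hT, InnerProductSpace.toDual_symm_apply, hg]
  exact ⟨K, inferInstance, inferInstance, inferInstance, T, hTmem, hDom⟩

/-- a single positive functional dominating a separable set -/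
theorem exists_dominating (Y : Submodule ℝ ((I →ᵇ H) →L[ℝ] ℝ))
    (hY : IsSeparable (Y : Set ((I →ᵇ H) →L[ℝ] ℝ))) :
    ∃ μ : (I →ᵇ ℝ) →L[ℝ] ℝ, Pos μ ∧ Y ≤ (Dom (H := H) μ).topologicalClosure := by
  obtain ⟨y, hD3⟩ := exists_dense_seq_submodule (N := (I →ᵇ H) →L[ℝ] ℝ) Y hY
  choose m hm1 hm2 hm3 using fun n => exists_polar (y n)
  obtain ⟨c, hc, μ, hμU⟩ := exists_weighted_sum' m
  have hμ : Pos μ := by
    intro U hU
    exact (hμU U).nonneg fun n => mul_nonneg (hc n).le (hm1 n U hU)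
  refine ⟨μ, hμ, ?_⟩
  have hle : ∀ n U, 0 ≤ U → c n * m n U ≤ μ U := by
    intro n U hU
    exact le_hasSum (hμU U) n fun j _ => mul_nonneg (hc j).le (hm1 j U hU)
  have hyD : Set.range y ⊆ ((Dom (H := H) μ).topologicalClosure : Set _) := by
    rintro _ ⟨n, rfl⟩
    refine Submodule.le_topologicalClosure _ ⟨(c n)⁻¹, by have := hc n; positivity, fun F => ?_⟩
    have h1 := hle n F.normComp (normComp_nonneg F)
    have h2 := hm3 n F
    rw [inv_mul_eq_div, le_div_iff₀ (hc n)]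
    calc |y n F| * c n ≤ m n F.normComp * c n := by
          have := (hc n).le
          gcongr
      _ = c n * m n F.normComp := mul_comm _ _
      _ ≤ μ F.normComp := h1
  intro x hx
  exact closure_minimal hyD (Submodule.isClosed_topologicalClosure _) (hD3 hx)

/-- The dual of `ℓ∞(I, H)` has the separable complementation property, for any Hilbert space. -/
theorem SCP_dual [CompleteSpace H] : SCP ((I →ᵇ H) →L[ℝ] ℝ) := by
  refine SCP_of_criterion.{u} fun Y hY => ?_
  obtain ⟨μ, hμ, hYμ⟩ := exists_dominating Y hY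
  exact ⟨_, _, hYμ, isCompl_dom_sing hμ, fun a ha b hb => norm_le_of_dom_sing hμ ha hb,
    hilbert_dom hμ⟩

end

end Pool.Agent.Lib.MP_92fb3f_an
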