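import Mathlib
import Pool.Agent.Lib.MP_92fb3f_an.Iso
import Pool.Agent.Lib.MP_92fb3f_an.Hump
import Pool.Agent.Lib.MP_92fb3f_an.SCPDual

set_option autoImplicit false
set_option linter.unusedSectionVars false

open TopologicalSpace Filter Topology BoundedContinuousFunction
open scoped ENNReal

namespace Pool.Agent.Lib.MP_92fb3f_an

section sep

theorem isSeparable_lp {ι E : Type*} [NormedAddCommGroup E] [NormedSpace ℝ E]
    [SeparableSpace E] {p : ℝ≥0∞} [Fact (1 ≤ p)] (hp : p ≠ ⊤) (J : Set ι) (hJ : J.Countable) :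
    IsSeparable {x : lp (fun _ : ι => E) p | ∀ i, i ∉ J → x i = 0} := by
  classical
  have h1 : IsSeparable (⋃ i ∈ J, Set.range fun a : E =>
      (lp.singleContinuousLinearMap ℝ (fun _ : ι => E) p i a)) := by
    have : Countable J := hJ.to_subtype
    rw [Set.biUnion_eq_iUnion]
    refine TopologicalSpace.IsSeparable.iUnion fun i => ?_
    exact isSeparable_range (lp.singleContinuousLinearMap ℝ (fun _ : ι => E) p i).continuous
  have h2 := (TopologicalSpace.IsSeparable.span (R := ℝ) h1).closure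
  refine h2.mono fun x hx => ?_
  refine mem_closure_of_tendsto (lp.hasSum_single hp x) (Eventually.of_forall fun F => ?_)
  refine Submodule.sum_mem _ fun i _ => ?_
  by_cases hi : i ∈ J
  · refine Submodule.subset_span ?_
    refine Set.mem_biUnion hi ⟨x i, rfl⟩
  · rw [hx i hi]
    have : (lp.single p i (0 : E) : lp (fun _ : ι => E) p) = 0 := by
      ext j; simp
    rw [this]
    exact Submodule.zero_mem _

instance separableSpace_HH (T : Type) [Countable T] : SeparableSpace (HH T) := by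
  rw [← isSeparable_univ_iff]
  refine (isSeparable_lp (p := 2) (E := ℝ) (by simp) (Set.univ : Set T) Set.countable_univ).mono ?_
  intro x _ i hi
  exact absurd (Set.mem_univ i) hi

end sep

section fail

variable {T R : Type} [DecidableEq T] (M : R → Set T)

/-- the separable subspace -/
def Y0 : Submodule ℝ (XX M) where
  carrier := {z | z.2 = 0 ∧ ∀ r : R, (z.1 : LL T R) (ir r) = 0}
  add_mem' := by
    rintro a b ⟨ha, ha'⟩ ⟨hb, hb'⟩
    refine ⟨by simp [ha, hb], fun r => ?_⟩
    change ((a.1 : LL T R) + (b.1 : LL T R)) (ir r) = 0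
    rw [lp.coeFn_add, Pi.add_apply, ha', hb', add_zero]
  zero_mem' := ⟨rfl, fun r => rfl⟩
  smul_mem' := by
    rintro c a ⟨ha, ha'⟩
    refine ⟨by simp [ha], fun r => ?_⟩
    change (c • (a.1 : LL T R)) (ir r) = 0
    rw [lp.coeFn_smul, Pi.smul_apply, ha', smul_zero]

theorem Y0_separable [Countable T] : IsSeparable (Y0 M : Set (XX M)) := by
  have hJ : (Set.range (il : Finset T → Idx T R)).Countable := Set.countable_range _
  have h1 := isSeparable_lp (ι := Idx T R) (E := HH T) (p := 1) (by simp) _ hJ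
  have hind : Topology.IsInducing (fun x : KK M => (x : LL T R)) := Topology.IsInducing.subtypeVal
  have h2 := hind.isSeparable_preimage h1
  have h3 : IsSeparable ({0} : Set (HH T)) := (Set.countable_singleton _).isSeparable
  refine (h2.prod h3).mono ?_
  rintro z ⟨hz1, hz2⟩
  refine ⟨?_, hz1⟩
  intro i hi
  rcases i with F | r
  · exact absurd ⟨F, rfl⟩ hi
  · exact hz2 r

theorem exists_good [Uncountable R] (Z : Set (XX M)) (hZ : IsSeparable Z) :
    ∃ r : R, ∀ z ∈ Z, (z.1 : LL T R) (ir r) = 0 := by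
  obtain ⟨D, hD, hZD⟩ := hZ
  let B : Set R := ⋃ d ∈ D, {r | ((d.1 : KK M) : LL T R) (ir r) ≠ 0}
  have hB : B.Countable := by
    refine hD.biUnion fun d _ => ?_
    have h1 := (lp1_hasSum_norm ((d.1 : KK M) : LL T R)).summable.countable_support
    have hinj : Function.Injective (ir : R → Idx T R) := Sum.inr_injective
    refine (h1.preimage hinj).mono ?_
    intro r hr
    simpa using hr
  obtain ⟨r, hr⟩ : ∃ r, r ∉ B := by
    by_contra hcon
    push Not at hcon
    have : (Set.univ : Set R).Countable := hB.mono fun r _ => hcon r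
    exact not_countable (α := R) (Set.countable_univ_iff.1 this)
  refine ⟨r, fun z hz => ?_⟩
  have hc : Continuous fun z : XX M => (z.1 : LL T R) (ir r) := by
    have h1 : Continuous fun x : LL T R => x (ir r) :=
      (continuous_apply (ir r)).comp (lp.uniformContinuous_coe (p := 1)).continuous
    exact h1.comp (continuous_subtype_val.comp continuous_fst)
  have hcl : IsClosed {z : XX M | (z.1 : LL T R) (ir r) = 0} := isClosed_eq hc continuous_const
  refine (closure_minimal ?_ hcl) (hZD hz)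
  intro d hd
  by_contra hne
  exact hr (Set.mem_biUnion hd hne)

/-- sum of unit vectors -/
theorem norm_sum_unit (t : ℕ → T) (ht : Function.Injective t) (J : Finset ℕ) :
    ‖∑ k ∈ J, (lp.single 2 (t k) (1 : ℝ) : HH T)‖ = Real.sqrt J.card := by
  have h1 : ‖∑ k ∈ J, (lp.single 2 (t k) (1 : ℝ) : HH T)‖ ^ 2 = J.card := by
    rw [← real_inner_self_eq_norm_sq, sum_inner]
    have : ∀ k ∈ J, inner ℝ (lp.single 2 (t k) (1 : ℝ) : HH T)
        (∑ j ∈ J, (lp.single 2 (t j) (1 : ℝ) : HH T)) = 1 := by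
      intro k hk
      rw [inner_sum, Finset.sum_eq_single k]
      · rw [lp.inner_single_left]; simp
      · intro j _ hj
        rw [lp.inner_single_left]
        have : t k ≠ t j := fun h => hj (ht h).symm
        simp [this]
      · intro h; exact absurd hk h
    rw [Finset.sum_congr rfl this]
    simp
  rw [← h1, Real.sqrt_sq (norm_nonneg _)]

theorem not_SCP [Countable T] [Uncountable R] (t : R → ℕ → T)
    (ht : ∀ r, Function.Injective (t r)) (htM : ∀ r k, t r k ∈ M r)
    (hfin : ∀ r s, s ≠ r → {k | t r k ∈ M s}.Finite) : ¬ SCP (XX M) := by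
  classical
  intro hS
  obtain ⟨Z, hYZ, -, hZs, P, hPZ, hP⟩ := hS (Y0 M) (Y0_separable M)
  obtain ⟨r, hr⟩ := exists_good M (Z : Set (XX M)) hZs
  -- the operator
  let Tm : KK M →L[ℝ] LL T R :=
    ((KK M).subtypeL.comp (ContinuousLinearMap.fst ℝ (KK M) (HH T))).comp
      (P.comp (ContinuousLinearMap.inl ℝ (KK M) (HH T)))
  have hTm : ∀ x : KK M, Tm x = ((P (x, 0)).1 : LL T R) := fun x => rfl
  have hTr : ∀ x : KK M, Tm x (ir r) = 0 := fun x => by rw [hTm]; exact hr _ (hPZ _)
  have hTid : ∀ x : KK M, (∀ s, (x : LL T R) (ir s) = 0) → Tm x = x := by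
    intro x hx
    have : ((x, 0) : XX M) ∈ Z := hYZ ⟨rfl, hx⟩
    rw [hTm, hP _ this]
  have hTq : ∀ x : KK M, qq M (Tm x) = 0 := fun x => (P (x, 0)).1.2
  -- unit vectors
  let e : ℕ → HH T := fun k => lp.single 2 (t r k) 1
  have he : ∀ k, e k = lp.single 2 (t r k) 1 := fun k => rfl
  let sg : Idx T R → HH T →L[ℝ] LL T R := fun i =>
    lp.singleContinuousLinearMap ℝ (fun _ : Idx T R => HH T) 1 i
  have hsg : ∀ i a, sg i a = lp.single 1 i a := fun i a => rfl
  have hsgn : ∀ i a, ‖sg i a‖ = ‖a‖ := fun i a => by rw [hsg, lp.norm_single (by simp)]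
  have hsg0 : ∀ (i j : Idx T R) (a : HH T), j ≠ i → sg i a j = 0 := by
    intro i j a hij
    rw [hsg]
    simp [hij]
  have hqil : ∀ (F : Finset T) (k : ℕ), t r k ∈ F → qq M (sg (il F) (e k)) = e k := by
    intro F k hk
    rw [hsg, qq_single]
    exact proj_single_mem (A := (F : Set T)) (by exact_mod_cast hk) 1
  have hqir : ∀ k : ℕ, qq M (sg (ir r) (e k)) = e k := by
    intro k
    rw [hsg, qq_single]
    exact proj_single_mem (A := M r) (htM r k) 1
  have hxk : ∀ k, sg (ir r) (e k) - sg (il {t r k}) (e k) ∈ KK M := by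
    intro k
    rw [LinearMap.mem_ker]
    change qq M _ = 0
    rw [map_sub, hqir, hqil _ _ (Finset.mem_singleton_self _), sub_self]
  let x : ℕ → KK M := fun k => ⟨_, hxk k⟩
  let v : ℕ → LL T R := fun k => Tm (x k) + sg (il {t r k}) (e k)
  refine hump v (2 * ‖Tm‖ + 1) ?_ ?_
  · intro J
    set h : HH T := ∑ k ∈ J, e k with hh
    have hhn : ‖h‖ = Real.sqrt J.card := norm_sum_unit (t r) (ht r) J
    let F : Finset T := J.image (t r)
    have hqF : qq M (sg (il F) h) = h := by
      rw [hh, map_sum, map_sum]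
      exact Finset.sum_congr rfl fun k hk => hqil F k (Finset.mem_image_of_mem _ hk)
    have hqr : qq M (sg (ir r) h) = h := by
      rw [hh, map_sum, map_sum]
      exact Finset.sum_congr rfl fun k _ => hqir k
    have hy : sg (ir r) h - sg (il F) h ∈ KK M := by
      rw [LinearMap.mem_ker]
      change qq M _ = 0
      rw [map_sub, hqF, hqr, sub_self]
    have ha : sg (il F) h - ∑ k ∈ J, sg (il {t r k}) (e k) ∈ KK M := by
      rw [LinearMap.mem_ker]
      change qq M _ = 0
      rw [map_sub, hqF, map_sum, Finset.sum_congr rfl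
        (fun k _ => hqil _ k (Finset.mem_singleton_self _)), ← hh, sub_self]
    let y : KK M := ⟨_, hy⟩
    let a : KK M := ⟨_, ha⟩
    have hxsum : ∑ k ∈ J, x k = y + a := by
      apply Subtype.ext
      rw [Submodule.coe_sum]
      change ∑ k ∈ J, (sg (ir r) (e k) - sg (il {t r k}) (e k)) =
        (sg (ir r) h - sg (il F) h) + (sg (il F) h - ∑ k ∈ J, sg (il {t r k}) (e k))
      rw [Finset.sum_sub_distrib, ← map_sum, ← hh]
      abel
    have hTa : Tm a = a := by
      refine hTid a fun s => ?_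
      change (sg (il F) h - ∑ k ∈ J, sg (il {t r k}) (e k) : LL T R) (ir s) = 0
      rw [lp.coeFn_sub, Pi.sub_apply, lp.coeFn_sum, Finset.sum_apply,
        hsg0 _ _ _ (by intro hcon; cases hcon), Finset.sum_eq_zero, sub_zero]
      intro k _
      exact hsg0 _ _ _ (by intro hcon; cases hcon)
    have hsum : ∑ k ∈ J, v k = Tm y + sg (il F) h := by
      change ∑ k ∈ J, (Tm (x k) + sg (il {t r k}) (e k)) = _
      rw [Finset.sum_add_distrib, ← map_sum, hxsum, map_add, hTa]
      change Tm y + (sg (il F) h - ∑ k ∈ J, sg (il {t r k}) (e k)) +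
        ∑ k ∈ J, sg (il {t r k}) (e k) = _
      abel
    rw [hsum]
    have hyn : ‖y‖ ≤ 2 * ‖h‖ := by
      change ‖sg (ir r) h - sg (il F) h‖ ≤ _
      refine (norm_sub_le _ _).trans ?_
      rw [hsgn, hsgn]
      linarith
    calc ‖Tm y + sg (il F) h‖ ≤ ‖Tm y‖ + ‖sg (il F) h‖ := norm_add_le _ _
      _ ≤ ‖Tm‖ * (2 * ‖h‖) + ‖h‖ := by
          rw [hsgn]
          gcongr
          exact (Tm.le_opNorm y).trans (by gcongr)
      _ = (2 * ‖Tm‖ + 1) * Real.sqrt J.card := by rw [← hhn]; ring
  · intro Fs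
    have hfin2 : ∀ i : Idx T R, i ≠ ir r → {k | t r k ∈ MM M i}.Finite := by
      intro i hi
      rcases i with F | s
      · exact (F.finite_toSet).preimage (ht r).injOn
      · exact hfin r s (fun hs => hi (by rw [hs]; rfl))
    have hB : (⋃ i ∈ {i | i ∈ Fs ∧ i ≠ ir r}, {k | t r k ∈ MM M i}).Finite :=
      ((Fs.finite_toSet).subset (fun i hi => hi.1)).biUnion fun i hi => hfin2 i hi.2
    obtain ⟨N, hN⟩ := hB.bddAbove
    refine ⟨N + 1, fun k hk => ?_⟩
    have hk2 : ∀ i ∈ Fs, i ≠ ir r → t r k ∉ MM M i := by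
      intro i hi hir hmem
      have := hN (Set.mem_biUnion (x := i) ⟨hi, hir⟩ hmem)
      omega
    have hqv : qq M (v k) = e k := by
      change qq M (Tm (x k) + sg (il {t r k}) (e k)) = _
      rw [map_add, hTq, hqil _ _ (Finset.mem_singleton_self _), zero_add]
    have hvr : v k (ir r) = 0 := by
      change (Tm (x k) + sg (il {t r k}) (e k) : LL T R) (ir r) = 0
      rw [lp.coeFn_add, Pi.add_apply, hTr, hsg0 _ _ _ (by intro hcon; cases hcon), add_zero]
    have h1 : HasSum (fun i => proj (MM M i) (v k i)) (qq M (v k)) := sumL_hasSum _ _ _ (v k)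
    have h2 : HasSum (fun i => (proj (MM M i) (v k i)) (t r k)) ((qq M (v k)) (t r k)) :=
      h1.mapL (lp.evalCLM ℝ (fun _ : T => ℝ) 2 (t r k))
    rw [hqv, he, lp.single_apply_self] at h2
    refine hasSum_le (fun i => ?_) h2 ((lp1_hasSum_norm (v k)).sub (hasSum_finset_part Fs (v k)))
    by_cases hi : i ∈ Fs
    · rw [if_pos hi, sub_self]
      by_cases hir : i = ir r
      · rw [hir, hvr, map_zero]
        exact le_of_eq rfl
      · rw [proj_apply, Set.indicator_of_notMem (hk2 i hi hir)]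
    · rw [if_neg hi, sub_zero]
      have h3 : ‖(proj (MM M i) (v k i)) (t r k)‖ ≤ ‖proj (MM M i) (v k i)‖ :=
        lp.norm_apply_le_norm (by simp) _ _
      exact (le_abs_self _).trans (h3.trans (norm_proj_apply_le _ _))

end fail

section comb

/-- an almost disjoint family of graphs -/
def MR (r : ℝ) : Set (ℕ × ℤ) := {p | p.2 = ⌊(p.1 : ℝ) * r⌋}

/-- enumeration of the members of the family -/
noncomputable def tR (r : ℝ) (k : ℕ) : ℕ × ℤ := (k, ⌊(k : ℝ) * r⌋)

theorem tR_injective (r : ℝ) : Function.Injective (tR r) := fun _ _ h => congrArg Prod.fst h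

theorem tR_mem (r : ℝ) (k : ℕ) : tR r k ∈ MR r := rfl

theorem tR_finite (r s : ℝ) (h : s ≠ r) : {k | tR r k ∈ MR s}.Finite := by
  have hpos : 0 < |r - s| := abs_pos.2 (sub_ne_zero.2 h.symm)
  obtain ⟨N, hN⟩ := exists_nat_gt (1 / |r - s|)
  refine (Set.finite_lt_nat N).subset fun k hk => ?_
  have hk' : ⌊(k : ℝ) * r⌋ = ⌊(k : ℝ) * s⌋ := hk
  have h1 : |(k : ℝ) * r - (k : ℝ) * s| < 1 := Int.abs_sub_lt_one_of_floor_eq_floor hk'
  rw [← mul_sub, abs_mul, Nat.abs_cast] at h1
  have h2 : (k : ℝ) < 1 / |r - s| := by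
    rw [lt_div_iff₀ hpos]
    exact h1
  exact_mod_cast h2.trans hN

end comb

section final

instance completeSpace_KK {T R : Type} [DecidableEq T] (M : R → Set T) :
    CompleteSpace (KK M) :=
  (ContinuousLinearMap.isClosed_ker (qq M)).completeSpace_coe

theorem X0_not_SCP : ¬ SCP (XX MR) :=
  not_SCP MR tR tR_injective tR_mem tR_finite

/-- The bidual has the separable complementation property. -/
def BSCP (X : Type) [NormedAddCommGroup X] [NormedSpace ℝ X] : Prop :=
  SCP ((X →L[ℝ] ℝ) →L[ℝ] ℝ)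

theorem X0_bidual_SCP : BSCP (XX MR) :=
  SCP_bidual (xi MR) (xi_injective MR) (xi_surjective MR) SCP_dual

end final

end Pool.Agent.Lib.MP_92fb3f_an
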